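import Mathlib
import Pool.Agent.H52.BeurlingWeight

open Polynomial Filter Topology

namespace Pool.Agent.H21.HP

open Pool.Agent.H52 Pool.Agent.H52.BW

/-- below every weight growing faster than all polynomials there is a weight as in the
counterexample; this is the construction of `BW.exists_weight` started from the weight `v` -/
theorem exists_weight_le (v : ℤ → ℝ) (hv : Wt v) :
    ∃ (w : ℤ → ℝ) (Ψ : ℤ → ℂ) (κ : ℝ), (∀ n, 1 ≤ w n) ∧ w 0 = 1 ∧
    (∀ m n, w (m + n) ≤ w m * w n) ∧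
    (∀ j : ℕ, ∃ M : ℕ, 0 < M ∧ (j:ℝ) * (w M * w (-M)) ≤ M) ∧
    (∀ (n : ℤ) (k : ℕ), ‖dk k Ψ n‖ * (k.factorial : ℝ) ≤ κ * w n) ∧ Ψ 0 = 0 ∧ Ψ 1 ≠ 0 ∧
    ∀ n, w n ≤ v n := by
  obtain ⟨K, hK, hKB⟩ := Bd_pw hv 1
  have hinit : Good K 0 (v, X) := by
    refine ⟨hv, ?_, ?_, ?_⟩
    · have : (fun n : ℤ => (X : ℂ[X]).eval (n:ℂ)) = pw 1 := by
        funext n; simp [pw]
      rw [this]
      apply Bd.mono hv.nonneg _ hKB
      unfold kap; norm_num
      linarith
    · norm_num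
    · simp
  choose nxt hnxt using fun j p => good_step hK j p
  let s : ∀ j : ℕ, {p : (ℤ → ℝ) × ℂ[X] // Good K j p} :=
    fun j => Nat.rec ⟨_, hinit⟩ (fun j p => nxt j p) j
  have hs : ∀ j, s (j + 1) = nxt j (s j) := fun j => rfl
  let w : ℕ → ℤ → ℝ := fun j => (s j).1.1
  let Φ : ℕ → ℂ[X] := fun j => (s j).1.2
  have hwt : ∀ j, Wt (w j) := fun j => (s j).2.1
  have hBd : ∀ j, Bd (w j) (K + 2) (fun n => (Φ j).eval (n:ℂ)) := fun j =>
    Bd.mono (hwt j).nonneg (kap_le K j) (s j).2.2.1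
  have hΦ1 : ∀ j, 1 / 2 < ‖(Φ j).eval 1‖ := fun j => (s j).2.2.2.1
  have hΦ0 : ∀ j, (Φ j).eval 0 = 0 := fun j => (s j).2.2.2.2
  have hnew : ∀ j, ∃ c : ℕ, j ≤ c ∧ 2 ≤ c ∧ w (j + 1) = wnew (w j) c (c ^ 3) := by
    intro j
    obtain ⟨c, h1, h2, h3⟩ := hnxt j (s j)
    exact ⟨c, h1, h2, by rw [← h3]⟩
  have hanti : ∀ n, Antitone (fun j => w j n) := by
    intro n
    apply antitone_nat_of_succ_le
    intro j
    obtain ⟨c, -, -, hc⟩ := hnew j
    rw [hc]
    exact wnew_le_self (hwt j) c _ n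
  have hbdd : ∀ n, BddBelow (Set.range fun j => w j n) := by
    intro n
    exact ⟨1, by rintro _ ⟨j, rfl⟩; exact (hwt j).one_le n⟩
  -- the limit weight
  let W : ℤ → ℝ := fun n => ⨅ j, w j n
  have hWlim : ∀ n, Tendsto (fun j => w j n) atTop (𝓝 (W n)) := fun n =>
    tendsto_atTop_ciInf (hanti n) (hbdd n)
  have hWle : ∀ j n, W n ≤ w j n := fun j n => ciInf_le (hbdd n) j
  -- the limit function
  have hlimex : ∀ n : ℤ, ∃ z : ℂ, Tendsto (fun j => (Φ j).eval (n:ℂ)) (hyperfilter ℕ : Filter ℕ)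
      (𝓝 z) := by
    intro n
    have hmem : ∀ j, (Φ j).eval (n:ℂ) ∈ Metric.closedBall (0:ℂ) ((K + 2) * w 0 n) := by
      intro j
      rw [mem_closedBall_zero_iff]
      have h1 := hBd j n 0
      simp only [dk, Function.iterate_zero, id_eq, Nat.factorial_zero, Nat.cast_one,
        mul_one] at h1
      exact h1.trans (mul_le_mul_of_nonneg_left (hanti n (Nat.zero_le j)) (by linarith))
    have hcomp : IsCompact (Metric.closedBall (0:ℂ) ((K + 2) * w 0 n)) :=
      isCompact_closedBall _ _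
    obtain ⟨z, -, hz⟩ := hcomp.ultrafilter_le_nhds
      ((hyperfilter ℕ).map (fun j => (Φ j).eval (n:ℂ))) (by
        rw [Ultrafilter.coe_map, le_principal_iff, mem_map]
        exact Filter.univ_mem' hmem)
    exact ⟨z, hz⟩
  choose Ψ hΨ using hlimex
  refine ⟨W, Ψ, K + 2, ?_, ?_, ?_, ?_, ?_, ?_, ?_, fun n => hWle 0 n⟩
  · intro n
    exact ge_of_tendsto' (hWlim n) fun j => (hwt j).one_le n
  · have : (fun j => w j 0) = fun _ => (1:ℝ) := by funext j; exact (hwt j).zero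
    have h := hWlim 0
    rw [this] at h
    exact tendsto_nhds_unique h tendsto_const_nhds
  · intro m n
    exact le_of_tendsto_of_tendsto' (hWlim (m + n)) ((hWlim m).mul (hWlim n))
      fun j => (hwt j).mul m n
  · intro j
    obtain ⟨c, hjc, hc2, hc⟩ := hnew j
    refine ⟨c ^ 3, by positivity, ?_⟩
    have hc1 : (1:ℝ) ≤ c := by exact_mod_cast (by omega : 1 ≤ c)
    have h1 : W ((c ^ 3 : ℕ) : ℤ) ≤ c := by
      refine (hWle (j + 1) _).trans ?_
      rw [hc]
      have := wnew_le (hwt j) c (c ^ 3) ((c ^ 3 : ℕ) : ℤ) 1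
      simpa [(hwt j).zero] using this
    have h2 : W (-((c ^ 3 : ℕ) : ℤ)) ≤ c := by
      refine (hWle (j + 1) _).trans ?_
      rw [hc]
      have := wnew_le (hwt j) c (c ^ 3) (-((c ^ 3 : ℕ) : ℤ)) (-1)
      simpa [(hwt j).zero] using this
    have h3 : 0 ≤ W (-((c ^ 3 : ℕ) : ℤ)) :=
      le_trans zero_le_one (ge_of_tendsto' (hWlim _) fun j => (hwt j).one_le _)
    have hj : (j:ℝ) ≤ c := by exact_mod_cast hjc
    calc (j:ℝ) * (W ((c ^ 3 : ℕ) : ℤ) * W (-((c ^ 3 : ℕ) : ℤ))) ≤ c * (c * c) := by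
          apply mul_le_mul hj (mul_le_mul h1 h2 h3 (by positivity)) _ (by positivity)
          have h4 : 0 ≤ W ((c ^ 3 : ℕ) : ℤ) :=
            le_trans zero_le_one (ge_of_tendsto' (hWlim _) fun j => (hwt j).one_le _)
          positivity
      _ = ((c ^ 3 : ℕ) : ℝ) := by push_cast; ring
  · intro n k
    have h1 : Tendsto (fun j => dk k (fun n : ℤ => (Φ j).eval (n:ℂ)) n)
        (hyperfilter ℕ : Filter ℕ) (𝓝 (dk k Ψ n)) := by
      simp only [dk_eq_sum]
      apply tendsto_finsetSum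
      intro i _
      simp only [zsmul_eq_mul]
      exact (hΨ (n + i)).const_mul _
    have h2 : Tendsto (fun j => w j n) (hyperfilter ℕ : Filter ℕ) (𝓝 (W n)) := by
      have h3 : (hyperfilter ℕ : Filter ℕ) ≤ atTop := by
        rw [← Nat.cofinite_eq_atTop]
        exact hyperfilter_le_cofinite
      exact (hWlim n).mono_left h3
    exact le_of_tendsto_of_tendsto' (h1.norm.mul_const _) (h2.const_mul _) fun j => hBd j n k
  · have h1 := hΨ 0
    have h2 : (fun j => (Φ j).eval (((0:ℤ)):ℂ)) = fun _ => (0:ℂ) := by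
      funext j
      simpa using hΦ0 j
    rw [h2] at h1
    exact tendsto_nhds_unique h1 tendsto_const_nhds
  · intro h
    have h1 := (hΨ 1).norm
    rw [h, norm_zero] at h1
    have h2 : (1:ℝ) / 2 ≤ 0 := ge_of_tendsto' h1 fun j => by
      have := hΦ1 j
      simpa using this.le
    norm_num at h2

end Pool.Agent.H21.HP
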