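import Mathlib
import Pool.Agent.H21.HP.Weight

open Filter Topology

namespace Pool.Agent.H21.HP

open Pool.Agent.H52 Pool.Agent.H52.BW

/-- for every function `h` tending to infinity there is a submultiplicative weight growing faster
than every polynomial, but not faster than `n ^ h n` -/
theorem exists_slow (h : ℕ → ℝ) (hh : Tendsto h atTop atTop) :
    ∃ v : ℤ → ℝ, Wt v ∧ ∀ᶠ m : ℕ in atTop, ∀ n : ℤ, n.natAbs = m → v n ≤ (m : ℝ) ^ (h m) := by
  have hT : ∀ i : ℕ, ∃ T : ℕ, i + 1 ≤ T ∧ ∀ m, T ≤ m → ((i : ℝ) + 1) ≤ h m := by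
    intro i
    obtain ⟨T, hT⟩ := eventually_atTop.mp (hh.eventually_ge_atTop ((i : ℝ) + 1))
    exact ⟨max T (i + 1), le_max_right _ _, fun m hm => hT m ((le_max_left _ _).trans hm)⟩
  choose T hT1 hT2 using hT
  have hTpos : ∀ i, (0 : ℝ) < T i := fun i => by
    have := hT1 i
    exact_mod_cast (by omega : 0 < T i)
  let N : ℕ → ℝ := fun i => ((i : ℝ) + 1) * T i
  have hN : ∀ i, 0 < N i := fun i => by
    have := hTpos i
    positivity
  have hN1 : ∀ i, 1 ≤ N i := fun i => by
    have h1 : (1 : ℝ) ≤ T i := by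
      have := hT1 i
      exact_mod_cast (by omega : 1 ≤ T i)
    have h2 : (1 : ℝ) ≤ (i : ℝ) + 1 := by
      have : (0 : ℝ) ≤ i := Nat.cast_nonneg i
      linarith
    exact one_le_mul_of_one_le_of_one_le h2 h1
  let t : ℕ → ℤ → ℝ := fun i n => (1 + |(n : ℝ)| / N i) ^ i
  have ht1 : ∀ i n, 1 ≤ t i n := by
    intro i n
    apply one_le_pow₀
    have : 0 ≤ |(n : ℝ)| / N i := div_nonneg (abs_nonneg _) (hN i).le
    linarith
  have habs : ∀ n : ℤ, |(n : ℝ)| = (n.natAbs : ℝ) := by
    intro n; rw [Nat.cast_natAbs]; simp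
  have hexp : Real.exp 1 ≤ 3 := by
    have := Real.exp_one_lt_d9
    linarith
  -- small arguments
  have hsmall : ∀ i (n : ℤ), n.natAbs ≤ T i → t i n ≤ 3 := by
    intro i n hn
    have h1 : 1 + |(n : ℝ)| / N i ≤ Real.exp (|(n : ℝ)| / N i) := by
      have := Real.add_one_le_exp (|(n : ℝ)| / N i)
      linarith
    have h0 : 0 ≤ |(n : ℝ)| / N i := div_nonneg (abs_nonneg _) (hN i).le
    calc t i n ≤ (Real.exp (|(n : ℝ)| / N i)) ^ i := pow_le_pow_left₀ (by linarith) h1 i
      _ = Real.exp (i * (|(n : ℝ)| / N i)) := by rw [← Real.exp_nat_mul]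
      _ ≤ Real.exp 1 := by
          apply Real.exp_le_exp.mpr
          rw [← mul_div_assoc, div_le_one (hN i), habs]
          have h2 : (n.natAbs : ℝ) ≤ T i := by exact_mod_cast hn
          have h3 : (0 : ℝ) ≤ i := Nat.cast_nonneg i
          calc (i : ℝ) * (n.natAbs : ℝ) ≤ i * T i := mul_le_mul_of_nonneg_left h2 h3
            _ ≤ ((i : ℝ) + 1) * T i := by
                have := hTpos i
                nlinarith
      _ ≤ 3 := hexp
  -- large arguments
  have hlarge : ∀ i (n : ℤ), T i < n.natAbs → t i n ≤ (1 + (n.natAbs : ℝ)) ^ i := by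
    intro i n _
    apply pow_le_pow_left₀
    · have : 0 ≤ |(n : ℝ)| / N i := div_nonneg (abs_nonneg _) (hN i).le
      linarith
    · rw [habs]
      have : (n.natAbs : ℝ) / N i ≤ n.natAbs := div_le_self (Nat.cast_nonneg _) (hN1 i)
      linarith
  have hbdd : ∀ n, BddAbove (Set.range fun i => t i n) := by
    intro n
    refine ⟨max 3 ((1 + (n.natAbs : ℝ)) ^ n.natAbs), ?_⟩
    rintro _ ⟨i, rfl⟩
    rcases le_or_gt n.natAbs (T i) with hi | hi
    · exact (hsmall i n hi).trans (le_max_left _ _)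
    · refine (hlarge i n hi).trans (le_trans ?_ (le_max_right _ _))
      apply pow_le_pow_right₀
      · have : (0 : ℝ) ≤ (n.natAbs : ℝ) := Nat.cast_nonneg _
        linarith
      · have := hT1 i
        omega
  let v : ℤ → ℝ := fun n => ⨆ i, t i n
  have htv : ∀ i n, t i n ≤ v n := fun i n => le_ciSup (hbdd n) i
  have hv1 : ∀ n, 1 ≤ v n := fun n => (ht1 0 n).trans (htv 0 n)
  refine ⟨v, ⟨hv1, ?_, ?_, ?_⟩, ?_⟩
  · apply le_antisymm _ (hv1 0)
    apply ciSup_le
    intro i
    simp [t]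
  · intro m n
    apply ciSup_le
    intro i
    have h1 : t i (m + n) ≤ t i m * t i n := by
      show (1 + |((m + n : ℤ) : ℝ)| / N i) ^ i ≤
        (1 + |(m : ℝ)| / N i) ^ i * (1 + |(n : ℝ)| / N i) ^ i
      rw [← mul_pow]
      have hm0 : 0 ≤ |(m : ℝ)| / N i := div_nonneg (abs_nonneg _) (hN i).le
      have hn0 : 0 ≤ |(n : ℝ)| / N i := div_nonneg (abs_nonneg _) (hN i).le
      have hmn0 : 0 ≤ |((m + n : ℤ) : ℝ)| / N i := div_nonneg (abs_nonneg _) (hN i).le
      apply pow_le_pow_left₀ (by linarith)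
      have h2 : |((m + n : ℤ) : ℝ)| / N i ≤ |(m : ℝ)| / N i + |(n : ℝ)| / N i := by
        rw [← add_div]
        apply div_le_div_of_nonneg_right _ (hN i).le
        push_cast
        exact abs_add_le _ _
      nlinarith [mul_nonneg hm0 hn0]
    have h2 := htv i m
    have h3 := htv i n
    have h4 := ht1 i n
    have h5 := hv1 m
    calc t i (m + n) ≤ t i m * t i n := h1
      _ ≤ v m * v n := by
          apply mul_le_mul h2 h3 (by linarith) (by linarith)
  · intro i
    refine ⟨N i ^ i, fun n => ?_⟩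
    have h1 : |(n : ℝ)| ^ i ≤ N i ^ i * t i n := by
      show |(n : ℝ)| ^ i ≤ N i ^ i * (1 + |(n : ℝ)| / N i) ^ i
      rw [← mul_pow]
      apply pow_le_pow_left₀ (abs_nonneg _)
      have h2 : N i * (1 + |(n : ℝ)| / N i) = N i + |(n : ℝ)| := by
        have := (hN i).ne'
        field_simp
      rw [h2]
      have := hN i
      linarith
    refine h1.trans ?_
    apply mul_le_mul_of_nonneg_left (htv i n)
    have := hN i
    positivity
  · filter_upwards [hh.eventually_ge_atTop 1, eventually_ge_atTop 3] with m hm1 hm3 n hn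
    have hm3' : (3 : ℝ) ≤ m := by exact_mod_cast hm3
    have hm0 : (0 : ℝ) < m := by linarith
    apply ciSup_le
    intro i
    rcases le_or_gt n.natAbs (T i) with hi | hi
    · refine (hsmall i n hi).trans ?_
      calc (3 : ℝ) ≤ m := hm3'
        _ = (m : ℝ) ^ (1 : ℝ) := (Real.rpow_one _).symm
        _ ≤ (m : ℝ) ^ (h m) := Real.rpow_le_rpow_of_exponent_le (by linarith) hm1
    · refine (hlarge i n hi).trans ?_
      rw [hn] at hi ⊢
      have hhi : ((i : ℝ) + 1) ≤ h m := hT2 i m hi.le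
      have him : (i : ℝ) ≤ m := by
        have := hT1 i
        exact_mod_cast (by omega : i ≤ m)
      have h1 : (1 + (m : ℝ)) ^ i ≤ (m : ℝ) ^ i * 3 := by
        have e1 : (1 + (m : ℝ)) = m * (1 + 1 / m) := by field_simp; ring
        rw [e1, mul_pow]
        apply mul_le_mul_of_nonneg_left _ (by positivity)
        have e2 : 1 + 1 / (m : ℝ) ≤ Real.exp (1 / m) := by
          have := Real.add_one_le_exp (1 / (m : ℝ))
          linarith
        calc (1 + 1 / (m : ℝ)) ^ i ≤ (Real.exp (1 / m)) ^ i := by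
              apply pow_le_pow_left₀ (by positivity) e2
          _ = Real.exp (i * (1 / m)) := by rw [← Real.exp_nat_mul]
          _ ≤ Real.exp 1 := by
              apply Real.exp_le_exp.mpr
              rw [mul_one_div, div_le_one hm0]
              exact him
          _ ≤ 3 := hexp
      calc (1 + (m : ℝ)) ^ i ≤ (m : ℝ) ^ i * 3 := h1
        _ ≤ (m : ℝ) ^ i * m := by gcongr
        _ = (m : ℝ) ^ ((i : ℝ) + 1) := by
            rw [Real.rpow_add hm0, Real.rpow_natCast, Real.rpow_one]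
        _ ≤ (m : ℝ) ^ (h m) := Real.rpow_le_rpow_of_exponent_le (by linarith) hhi

end Pool.Agent.H21.HP
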