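import Mathlib
import Pool.Agent.H52.BeurlingAlg
import Pool.Agent.H21.HP.Slow

open Filter Topology

namespace Pool.Agent.H21.HP

open Pool.Agent.H52 Pool.Agent.H52.Conc

variable (W : Wg)

/-- the powers of the generator as a homomorphism -/
noncomputable def eHom : Multiplicative ℤ →* (datA W).Comp where
  toFun n := eA W n.toAdd
  map_one' := by rw [toAdd_one, eA_zero]
  map_mul' m n := by rw [toAdd_mul, eA_add]

/-- the generator of the Beurling algebra -/
noncomputable def sGen : ((datA W).Comp)ˣ := (eHom W).toHomUnits (Multiplicative.ofAdd 1)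

lemma sGen_zpow (n : ℤ) : ((sGen W ^ n : ((datA W).Comp)ˣ) : (datA W).Comp) = eA W n := by
  unfold sGen
  rw [← map_zpow, ← ofAdd_zsmul]
  show eA W (n • (1 : ℤ)) = _
  rw [smul_eq_mul, mul_one]

lemma span_dense :
    Dense (Submodule.span ℂ (Set.range fun n : ℤ =>
      ((sGen W ^ n : ((datA W).Comp)ˣ) : (datA W).Comp)) : Set (datA W).Comp) := by
  intro a
  have h1 := (datA W).denseRange_inc a
  refine closure_mono ?_ h1
  rintro _ ⟨f, rfl⟩
  refine R_induction (motive := fun f => (datA W).inc f ∈ (Submodule.span ℂ (Set.range fun n : ℤ =>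
      ((sGen W ^ n : ((datA W).Comp)ˣ) : (datA W).Comp)) : Set (datA W).Comp)) f
      (fun n => ?_) (fun x y hx hy => ?_) (fun c x hx => ?_)
  · apply Submodule.subset_span
    exact ⟨n, sGen_zpow W n⟩
  · rw [map_add]
    exact Submodule.add_mem _ hx hy
  · rw [map_smul]
    exact Submodule.smul_mem _ c hx

lemma norm_formula (c : ℤ →₀ ℂ) :
    ‖∑ n ∈ c.support, c n • ((sGen W ^ n : ((datA W).Comp)ˣ) : (datA W).Comp)‖ =
      ∑ n ∈ c.support, ‖c n‖ * W.w n := by
  have hw0 : ∀ n, 0 ≤ W.w n := fun n => le_trans zero_le_one (W.one_le n)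
  apply le_antisymm
  · refine (norm_sum_le _ _).trans (Finset.sum_le_sum fun n _ => ?_)
    rw [norm_smul, sGen_zpow]
    exact mul_le_mul_of_nonneg_left (eA_norm W n) (norm_nonneg _)
  · let θ : ℤ → ℂ := fun n => (W.w n : ℂ) * ((starRingEnd ℂ) (c n) / (‖c n‖ : ℂ))
    have hθ : ∀ n, ‖θ n‖ ≤ W.w n := by
      intro n
      have h1 : ‖(starRingEnd ℂ) (c n) / (‖c n‖ : ℂ)‖ ≤ 1 := by
        rw [norm_div, Complex.norm_real, norm_norm, RCLike.norm_conj]
        exact div_self_le_one _
      calc ‖θ n‖ = W.w n * ‖(starRingEnd ℂ) (c n) / (‖c n‖ : ℂ)‖ := by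
            show ‖(W.w n : ℂ) * ((starRingEnd ℂ) (c n) / (‖c n‖ : ℂ))‖ = _
            rw [norm_mul, Complex.norm_real, Real.norm_of_nonneg (hw0 n)]
        _ ≤ W.w n * 1 := mul_le_mul_of_nonneg_left h1 (hw0 n)
        _ = W.w n := mul_one _
    have h2 : ∑ n ∈ c.support, c n • ((sGen W ^ n : ((datA W).Comp)ˣ) : (datA W).Comp) =
        (datA W).inc (∑ n ∈ c.support, c n • e n) := by
      rw [map_sum]
      apply Finset.sum_congr rfl
      intro n _
      rw [map_smul, sGen_zpow]
      rfl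
    rw [h2, NA.Dat.norm_inc]
    have h3 := (datA W).le_nrm (evF_mem_Y_A W hθ) (∑ n ∈ c.support, c n • e n)
    refine le_trans (le_of_eq ?_) h3
    have h4 : evF θ (∑ n ∈ c.support, c n • e n) =
        ((∑ n ∈ c.support, ‖c n‖ * W.w n : ℝ) : ℂ) := by
      rw [map_sum, Complex.ofReal_sum]
      apply Finset.sum_congr rfl
      intro n hn
      rw [map_smul, evF_e, smul_eq_mul]
      have hc : c n ≠ 0 := Finsupp.mem_support_iff.mp hn
      have hc' : (‖c n‖ : ℂ) ≠ 0 := by
        exact_mod_cast (norm_ne_zero_iff.mpr hc)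
      show c n * ((W.w n : ℂ) * ((starRingEnd ℂ) (c n) / (‖c n‖ : ℂ))) = _
      have h5 : c n * (starRingEnd ℂ) (c n) = (‖c n‖ : ℂ) ^ 2 := by
        rw [Complex.mul_conj, Complex.normSq_eq_norm_sq]; push_cast; ring
      push_cast
      field_simp
      linear_combination (W.w n : ℂ) * h5
    rw [h4, Complex.norm_real, Real.norm_of_nonneg]
    exact Finset.sum_nonneg fun n _ => mul_nonneg (norm_nonneg _) (hw0 n)

end Pool.Agent.H21.HP
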