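import Mathlib

open Complex MeasureTheory Filter Topology Metric

namespace Pool.Agent.H21.HP

section circ

variable {B : Type*} [NormedCommRing B] [NormedAlgebra ℂ B] [CompleteSpace B]

lemma circ_mul_left (z : B) (f : ℂ → B) (R : ℝ) (hf : CircleIntegrable f 0 R) :
    (∮ ζ in C(0, R), z * f ζ) = z * ∮ ζ in C(0, R), f ζ := by
  have h := (ContinuousLinearMap.mul ℂ B z).intervalIntegral_comp_comm hf.out
  simp only [circleIntegral]
  rw [← ContinuousLinearMap.mul_apply' ℂ B z, ← h]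
  congr 1
  funext θ
  simp

lemma ne_zero_of_sphere {ζ : ℂ} {R : ℝ} (hR : 0 < R) (hζ : ζ ∈ sphere (0 : ℂ) R) : ζ ≠ 0 := by
  rintro rfl
  simp at hζ
  linarith

lemma cont_inv_pow (k : ℕ) {R : ℝ} (hR : 0 < R) :
    ContinuousOn (fun ζ : ℂ => (ζ ^ k)⁻¹) (sphere (0 : ℂ) R) :=
  ContinuousOn.inv₀ (by fun_prop) (fun ζ hζ => pow_ne_zero _ (ne_zero_of_sphere hR hζ))

lemma circ_zero (z : B) (g : ℂ → B) (hg : Differentiable ℂ g)
    (hgz : ∀ ζ, g ζ = 1 + ζ • (z * g ζ)) {R : ℝ} (hR : 0 < R) (k : ℕ) :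
    (∮ ζ in C(0, R), (ζ ^ (k + 1))⁻¹ • g ζ) = (2 * Real.pi * I : ℂ) • z ^ k := by
  induction k with
  | zero =>
    have h := (hg.differentiableOn (s := closedBall (0 : ℂ) R)).circleIntegral_sub_inv_smul
      (w := 0) (by simpa using hR)
    have h0 : g 0 = 1 := by rw [hgz 0]; simp
    rw [h0] at h
    simpa using h
  | succ k ih =>
    have hcg : Continuous g := hg.continuous
    have e1 : (∮ ζ in C(0, R), (ζ ^ (k + 1 + 1))⁻¹ • g ζ) =
        ∮ ζ in C(0, R), ((ζ ^ (k + 1 + 1))⁻¹ • (1 : B) + z * ((ζ ^ (k + 1))⁻¹ • g ζ)) := by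
      apply circleIntegral.integral_congr hR.le
      intro ζ hζ
      have hz0 := ne_zero_of_sphere hR hζ
      have e2 : (ζ ^ (k + 1 + 1))⁻¹ * ζ = (ζ ^ (k + 1))⁻¹ := by
        rw [pow_succ]; field_simp
      show (ζ ^ (k + 1 + 1))⁻¹ • g ζ = (ζ ^ (k + 1 + 1))⁻¹ • (1 : B) + z * ((ζ ^ (k + 1))⁻¹ • g ζ)
      conv_lhs => rw [hgz ζ]
      rw [smul_add, smul_smul, e2, mul_smul_comm]
    have hint : CircleIntegrable (fun ζ : ℂ => (ζ ^ (k + 1))⁻¹ • g ζ) 0 R :=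
      ContinuousOn.circleIntegrable hR.le ((cont_inv_pow _ hR).smul hcg.continuousOn)
    have hint1 : CircleIntegrable (fun ζ : ℂ => (ζ ^ (k + 1 + 1))⁻¹ • (1 : B)) 0 R :=
      ContinuousOn.circleIntegrable hR.le ((cont_inv_pow _ hR).smul continuousOn_const)
    have hint2 : CircleIntegrable (fun ζ : ℂ => z * ((ζ ^ (k + 1))⁻¹ • g ζ)) 0 R :=
      ContinuousOn.circleIntegrable hR.le
        (continuousOn_const.mul ((cont_inv_pow _ hR).smul hcg.continuousOn))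
    have hz : (∮ ζ in C(0, R), (ζ ^ (k + 1 + 1))⁻¹) = 0 := by
      have h := circleIntegral.integral_sub_zpow_of_ne (n := -((k + 1 + 1 : ℕ) : ℤ))
        (by push_cast; omega) 0 0 R
      simpa only [sub_zero, zpow_neg, zpow_natCast] using h
    rw [e1, circleIntegral.integral_add hint1 hint2, circ_mul_left _ _ _ hint, ih,
      circleIntegral.integral_smul_const, hz, zero_smul, zero_add, mul_smul_comm, pow_succ']

lemma circ_pow (z : B) (g : ℂ → B) (hg : Differentiable ℂ g)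
    (hgz : ∀ ζ, g ζ = 1 + ζ • (z * g ζ)) {R : ℝ} (hR : 0 < R) (p : ℕ) : ∀ k : ℕ,
    (∮ ζ in C(0, R), ((ζ ^ (2 * p + k + 1))⁻¹ * (ζ ^ 2 + (R : ℂ) ^ 2) ^ p) • g ζ) =
      (2 * Real.pi * I : ℂ) • (z ^ k * (1 + (R : ℂ) ^ 2 • z ^ 2) ^ p) := by
  have hcg : Continuous g := hg.continuous
  induction p with
  | zero =>
    intro k
    have := circ_zero z g hg hgz hR k
    simpa using this
  | succ p ih =>
    intro k
    have hint : ∀ j : ℕ, CircleIntegrable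
        (fun ζ : ℂ => ((ζ ^ j)⁻¹ * (ζ ^ 2 + (R : ℂ) ^ 2) ^ p) • g ζ) 0 R := fun j =>
      ContinuousOn.circleIntegrable hR.le
        (((cont_inv_pow _ hR).mul (by fun_prop)).smul hcg.continuousOn)
    have e1 : (∮ ζ in C(0, R), ((ζ ^ (2 * (p + 1) + k + 1))⁻¹ *
        (ζ ^ 2 + (R : ℂ) ^ 2) ^ (p + 1)) • g ζ) =
        ∮ ζ in C(0, R), (((ζ ^ (2 * p + k + 1))⁻¹ * (ζ ^ 2 + (R : ℂ) ^ 2) ^ p) • g ζ +
          ((R : ℂ) ^ 2) • (((ζ ^ (2 * p + (k + 2) + 1))⁻¹ * (ζ ^ 2 + (R : ℂ) ^ 2) ^ p) • g ζ)) := by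
      apply circleIntegral.integral_congr hR.le
      intro ζ hζ
      have hz0 := ne_zero_of_sphere hR hζ
      show ((ζ ^ (2 * (p + 1) + k + 1))⁻¹ * (ζ ^ 2 + (R : ℂ) ^ 2) ^ (p + 1)) • g ζ =
        ((ζ ^ (2 * p + k + 1))⁻¹ * (ζ ^ 2 + (R : ℂ) ^ 2) ^ p) • g ζ +
          ((R : ℂ) ^ 2) • (((ζ ^ (2 * p + (k + 2) + 1))⁻¹ * (ζ ^ 2 + (R : ℂ) ^ 2) ^ p) • g ζ)
      rw [smul_smul, ← add_smul]
      congr 1
      have e3 : (ζ ^ (2 * (p + 1) + k + 1))⁻¹ = (ζ ^ (2 * p + k + 1))⁻¹ * (ζ ^ 2)⁻¹ := by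
        rw [← mul_inv, ← pow_add]; congr 2; ring
      have e4 : (ζ ^ (2 * p + (k + 2) + 1))⁻¹ = (ζ ^ (2 * p + k + 1))⁻¹ * (ζ ^ 2)⁻¹ := by
        rw [← mul_inv, ← pow_add]
        have e5 : 2 * p + (k + 2) + 1 = 2 * p + k + 1 + 2 := by ring
        rw [e5]
      rw [e3, e4]
      have h2 : ζ ^ 2 ≠ 0 := pow_ne_zero _ hz0
      have h3 : ζ ^ (2 * p + k + 1) ≠ 0 := pow_ne_zero _ hz0
      field_simp
      ring
    have hint2 : CircleIntegrable (fun ζ : ℂ => ((R : ℂ) ^ 2) •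
        (((ζ ^ (2 * p + (k + 2) + 1))⁻¹ * (ζ ^ 2 + (R : ℂ) ^ 2) ^ p) • g ζ)) 0 R :=
      ContinuousOn.circleIntegrable hR.le
        (continuousOn_const.smul (((cont_inv_pow _ hR).mul (by fun_prop)).smul hcg.continuousOn))
    rw [e1, circleIntegral.integral_add (hint _) hint2, circleIntegral.integral_smul, ih k,
      ih (k + 2), smul_comm ((R : ℂ) ^ 2), ← smul_add]
    congr 1
    rw [pow_succ (1 + (R : ℂ) ^ 2 • z ^ 2) p, mul_add, mul_add, mul_one, pow_add z k 2,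
      mul_smul_comm, mul_smul_comm]
    congr 2
    ring

end circ

end Pool.Agent.H21.HP
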