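import Mathlib

open Complex MeasureTheory Filter Topology Metric

namespace Pool.Agent.H21.HP

section resolvent

variable {B : Type*} [NormedCommRing B] [NormedAlgebra ℂ B] [CompleteSpace B]

/-- the resolvent of an element with polynomially growing powers -/
lemma resolvent_bound (W : B) (C : ℝ) (K : ℕ) (hC : ∀ n : ℕ, ‖W ^ n‖ ≤ C * ((n : ℝ) + 1) ^ K)
    (c : ℂ) (hc : ‖c‖ < 1) :
    ∃ V : B, (1 - c • W) * V = 1 ∧ ‖V‖ ≤ C * K.factorial * (1 / (1 - ‖c‖) ^ (K + 1)) := by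
  have hC0 : 0 ≤ C := by
    have h0 := hC 0
    simp only [pow_zero, Nat.cast_zero, zero_add, one_pow, mul_one] at h0
    exact (norm_nonneg _).trans h0
  have hterm : ∀ n : ℕ,
      ‖(c • W) ^ n‖ ≤ C * K.factorial * (((n + K).choose K : ℝ) * ‖c‖ ^ n) := by
    intro n
    have h1 : ‖(c • W) ^ n‖ = ‖c‖ ^ n * ‖W ^ n‖ := by
      rw [smul_pow, norm_smul, norm_pow]
    have h2 : ((n : ℝ) + 1) ^ K ≤ K.factorial * ((n + K).choose K : ℝ) := by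
      have h3 : (n + 1) ^ K ≤ K.factorial * (n + K).choose K := by
        rw [← Nat.ascFactorial_eq_factorial_mul_choose]
        exact Nat.pow_succ_le_ascFactorial (n + 1) K
      exact_mod_cast h3
    rw [h1]
    calc ‖c‖ ^ n * ‖W ^ n‖ ≤ ‖c‖ ^ n * (C * (K.factorial * ((n + K).choose K : ℝ))) := by
          gcongr
          exact (hC n).trans (by gcongr)
      _ = C * K.factorial * (((n + K).choose K : ℝ) * ‖c‖ ^ n) := by ring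
  have hcr : ‖(‖c‖ : ℝ)‖ < 1 := by simpa using hc
  have hsum := hasSum_choose_mul_geometric_of_norm_lt_one K hcr
  have hs2 := hsum.mul_left (C * K.factorial)
  have hsW : Summable (fun n : ℕ => (c • W) ^ n) :=
    Summable.of_norm_bounded hs2.summable hterm
  refine ⟨∑' n : ℕ, (c • W) ^ n, hsW.one_sub_mul_tsum_pow, ?_⟩
  exact tsum_of_norm_bounded hs2 hterm

/-- the bound in the right half plane -/
lemma half_bound (W z : B) (C : ℝ) (K : ℕ) (hC : ∀ n : ℕ, ‖W ^ n‖ ≤ C * ((n : ℝ) + 1) ^ K)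
    (hz : z * (W + 1) = W - 1) (ζ : ℂ) (g : B) (hg : g * (1 - ζ • z) = 1) (hre : 0 < ζ.re)
    (R : ℝ) (hR1 : 1 ≤ R) (hR : ‖ζ‖ = R) :
    ‖g‖ * (2 * R * ζ.re) ^ (K + 1) ≤
      ‖W + 1‖ * (C * K.factorial) * ((2 * R) ^ (2 * K + 1) * R ^ (K + 1)) := by
  have hC0 : 0 ≤ C := by
    have h0 := hC 0
    simp only [pow_zero, Nat.cast_zero, zero_add, one_pow, mul_one] at h0
    exact (norm_nonneg _).trans h0
  have hz1 : ζ + 1 ≠ 0 := by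
    intro h
    have := congrArg Complex.re h
    simp at this
    linarith
  have hp : 0 < ‖ζ + 1‖ := norm_pos_iff.mpr hz1
  have hsq1 : ‖ζ + 1‖ ^ 2 = (ζ.re + 1) ^ 2 + ζ.im ^ 2 := by
    rw [← Complex.normSq_eq_norm_sq, Complex.normSq_apply]; simp; ring
  have hsq2 : ‖ζ - 1‖ ^ 2 = (ζ.re - 1) ^ 2 + ζ.im ^ 2 := by
    rw [← Complex.normSq_eq_norm_sq, Complex.normSq_apply]; simp; ring
  have hlt : ‖ζ - 1‖ < ‖ζ + 1‖ := by
    apply lt_of_pow_lt_pow_left₀ 2 hp.le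
    rw [hsq1, hsq2]; nlinarith
  set c : ℂ := (ζ - 1) / (ζ + 1) with hcdef
  have hcn : ‖c‖ = ‖ζ - 1‖ / ‖ζ + 1‖ := by rw [hcdef, norm_div]
  have hc : ‖c‖ < 1 := by rw [hcn, div_lt_one hp]; exact hlt
  obtain ⟨V, hV1, hV2⟩ := resolvent_bound W C K hC c hc
  -- the algebraic identity
  have hid : (1 - ζ • z) * (W + 1) = (ζ + 1) • (1 - c • W) := by
    have e1 : (ζ + 1) * c = ζ - 1 := by rw [hcdef]; field_simp
    have e2 : (ζ + 1) • (1 - c • W) = (ζ + 1) • (1 : B) - (ζ - 1) • W := by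
      rw [smul_sub, smul_smul, e1]
    rw [e2, sub_mul, smul_mul_assoc, hz, one_mul]
    module
  have hg2 : (ζ + 1) • g = (W + 1) * V := by
    calc (ζ + 1) • g = (ζ + 1) • (g * ((1 - c • W) * V)) := by rw [hV1, mul_one]
      _ = (g * ((ζ + 1) • (1 - c • W))) * V := by
          rw [mul_smul_comm, smul_mul_assoc, mul_assoc]
      _ = (g * (1 - ζ • z)) * (W + 1) * V := by rw [← hid]; ring
      _ = (W + 1) * V := by rw [hg, one_mul]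
  have hn : ‖ζ + 1‖ * ‖g‖ ≤ ‖W + 1‖ * (C * K.factorial * (1 / (1 - ‖c‖) ^ (K + 1))) := by
    rw [← norm_smul, hg2]
    exact (norm_mul_le _ _).trans (by gcongr)
  -- lower bound for 1 - |c|
  have hlow : 2 * ζ.re / ‖ζ + 1‖ ^ 2 ≤ 1 - ‖c‖ := by
    rw [hcn, div_le_iff₀ (by positivity)]
    have e : (1 - ‖ζ - 1‖ / ‖ζ + 1‖) * ‖ζ + 1‖ ^ 2 = (‖ζ + 1‖ - ‖ζ - 1‖) * ‖ζ + 1‖ := by
      field_simp
    rw [e]
    have e2 : (‖ζ + 1‖ - ‖ζ - 1‖) * (‖ζ + 1‖ + ‖ζ - 1‖) = 4 * ζ.re := by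
      have : (‖ζ + 1‖ - ‖ζ - 1‖) * (‖ζ + 1‖ + ‖ζ - 1‖) = ‖ζ + 1‖ ^ 2 - ‖ζ - 1‖ ^ 2 := by ring
      rw [this, hsq1, hsq2]; ring
    nlinarith [norm_nonneg (ζ - 1)]
  have hpos : 0 < 2 * ζ.re / ‖ζ + 1‖ ^ 2 := by positivity
  have hinv : 1 / (1 - ‖c‖) ^ (K + 1) ≤ (‖ζ + 1‖ ^ 2) ^ (K + 1) / (2 * ζ.re) ^ (K + 1) := by
    calc 1 / (1 - ‖c‖) ^ (K + 1) ≤ 1 / (2 * ζ.re / ‖ζ + 1‖ ^ 2) ^ (K + 1) := by
          apply one_div_le_one_div_of_le (by positivity)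
          exact pow_le_pow_left₀ hpos.le hlow _
      _ = (‖ζ + 1‖ ^ 2) ^ (K + 1) / (2 * ζ.re) ^ (K + 1) := by
          rw [div_pow, one_div_div]
  have hζ1 : ‖ζ + 1‖ ≤ 2 * R := by
    calc ‖ζ + 1‖ ≤ ‖ζ‖ + ‖(1 : ℂ)‖ := norm_add_le _ _
      _ ≤ 2 * R := by rw [hR, norm_one]; linarith
  have hR0 : 0 < R := by linarith
  -- combine
  have h3 : ‖g‖ * (2 * ζ.re) ^ (K + 1) ≤
      ‖W + 1‖ * (C * K.factorial) * ‖ζ + 1‖ ^ (2 * K + 1) := by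
    have h4 : ‖ζ + 1‖ * ‖g‖ * (2 * ζ.re) ^ (K + 1) ≤
        ‖W + 1‖ * (C * K.factorial) * (‖ζ + 1‖ ^ 2) ^ (K + 1) := by
      have h5 : ‖ζ + 1‖ * ‖g‖ ≤ ‖W + 1‖ * (C * K.factorial *
          ((‖ζ + 1‖ ^ 2) ^ (K + 1) / (2 * ζ.re) ^ (K + 1))) :=
        hn.trans (by gcongr)
      calc ‖ζ + 1‖ * ‖g‖ * (2 * ζ.re) ^ (K + 1) ≤ (‖W + 1‖ * (C * K.factorial *
          ((‖ζ + 1‖ ^ 2) ^ (K + 1) / (2 * ζ.re) ^ (K + 1)))) * (2 * ζ.re) ^ (K + 1) := by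
            gcongr
        _ = ‖W + 1‖ * (C * K.factorial) * (‖ζ + 1‖ ^ 2) ^ (K + 1) := by
            have : (2 * ζ.re) ^ (K + 1) ≠ 0 := by positivity
            field_simp
    have h6 : (‖ζ + 1‖ ^ 2) ^ (K + 1) = ‖ζ + 1‖ * ‖ζ + 1‖ ^ (2 * K + 1) := by ring
    rw [h6] at h4
    have h7 : ‖ζ + 1‖ * (‖g‖ * (2 * ζ.re) ^ (K + 1)) ≤
        ‖ζ + 1‖ * (‖W + 1‖ * (C * K.factorial) * ‖ζ + 1‖ ^ (2 * K + 1)) := by
      calc _ = ‖ζ + 1‖ * ‖g‖ * (2 * ζ.re) ^ (K + 1) := by ring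
        _ ≤ _ := h4
        _ = _ := by ring
    exact le_of_mul_le_mul_left h7 hp
  calc ‖g‖ * (2 * R * ζ.re) ^ (K + 1) = (‖g‖ * (2 * ζ.re) ^ (K + 1)) * R ^ (K + 1) := by
        rw [show 2 * R * ζ.re = (2 * ζ.re) * R by ring, mul_pow, mul_assoc]
    _ ≤ (‖W + 1‖ * (C * K.factorial) * ‖ζ + 1‖ ^ (2 * K + 1)) * R ^ (K + 1) := by gcongr
    _ ≤ (‖W + 1‖ * (C * K.factorial) * (2 * R) ^ (2 * K + 1)) * R ^ (K + 1) := by gcongr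
    _ = _ := by ring

end resolvent

end Pool.Agent.H21.HP
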