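import Mathlib
import Pool.Agent.H21.HP.Hille
import Pool.Agent.H21.HP.Circ

open Complex MeasureTheory Filter Topology Metric

namespace Pool.Agent.H21.HP

section hille

variable {B : Type*} [NormedCommRing B] [NormedAlgebra ℂ B]

lemma isUnit_one_add {x : B} (hx : x ∈ Ring.jacobson B) : IsUnit (1 + x) := by
  rw [← Ideal.jacobson_bot, Ideal.mem_jacobson_bot] at hx
  have := hx 1
  rwa [mul_one, add_comm] at this

lemma smul_mem_jac {x : B} (hx : x ∈ Ring.jacobson B) (c : ℂ) : c • x ∈ Ring.jacobson B := by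
  have : c • x = (algebraMap ℂ B c) * x := Algebra.smul_def c x
  rw [this]
  exact Ideal.mul_mem_left _ _ hx

lemma isUnit_smul_add {x : B} (hx : x ∈ Ring.jacobson B) {c : ℂ} (hc : c ≠ 0) :
    IsUnit (c • (1 : B) + x) := by
  have h1 : c • (1 : B) + x = (algebraMap ℂ B c) * (1 + c⁻¹ • x) := by
    rw [← Algebra.smul_def, smul_add, smul_smul, mul_inv_cancel₀ hc, one_smul]
  rw [h1]
  exact IsUnit.mul ((isUnit_iff_ne_zero.mpr hc).map _) (isUnit_one_add (smul_mem_jac hx _))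

variable [CompleteSpace B]

/-- the growth of the resolvent along large circles -/
lemma circle_bound (W : Bˣ) (z : B) (C : ℝ) (K : ℕ)
    (hC : ∀ n : ℕ, ‖(W : B) ^ n‖ ≤ C * ((n : ℝ) + 1) ^ K)
    (hC' : ∀ n : ℕ, ‖((W⁻¹ : Bˣ) : B) ^ n‖ ≤ C * ((n : ℝ) + 1) ^ K)
    (hz : z * (W + 1) = W - 1) (ζ : ℂ) (g : B) (hg : g * (1 - ζ • z) = 1)
    (R : ℝ) (hR1 : 1 ≤ R) (hR : ‖ζ‖ = R) :
    ‖g‖ * ‖ζ ^ 2 + (R : ℂ) ^ 2‖ ^ (K + 1) ≤
      ((‖(W : B) + 1‖ + ‖((W⁻¹ : Bˣ) : B) + 1‖) * (C * K.factorial) * 2 ^ (2 * K + 1)) *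
        R ^ (3 * K + 2) := by
  have hC0 : 0 ≤ C := by
    have h0 := hC 0
    simp only [pow_zero, Nat.cast_zero, zero_add, one_pow, mul_one] at h0
    exact (norm_nonneg _).trans h0
  have hR0 : 0 < R := by linarith
  have hnorm : ‖ζ ^ 2 + (R : ℂ) ^ 2‖ = 2 * R * |ζ.re| := by
    have h1 : (R : ℂ) ^ 2 = ζ * (starRingEnd ℂ) ζ := by
      rw [Complex.mul_conj, Complex.normSq_eq_norm_sq, hR]; push_cast; ring
    have h2 : ζ ^ 2 + (R : ℂ) ^ 2 = ζ * ((2 * ζ.re : ℝ) : ℂ) := by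
      rw [h1, ← Complex.add_conj]; ring
    rw [h2, norm_mul, hR, Complex.norm_real, Real.norm_eq_abs, abs_mul, abs_two]
    ring
  have hRpow : (2 * R) ^ (2 * K + 1) * R ^ (K + 1) = 2 ^ (2 * K + 1) * R ^ (3 * K + 2) := by
    rw [mul_pow, mul_assoc, ← pow_add]; congr 2; ring
  rw [hnorm]
  rcases lt_trichotomy ζ.re 0 with h | h | h
  · have hz' : (-z) * (((W⁻¹ : Bˣ) : B) + 1) = ((W⁻¹ : Bˣ) : B) - 1 := by
      have e1 : (W : B) * ((W⁻¹ : Bˣ) : B) = 1 := Units.mul_inv W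
      have e2 : (-z) * (((W⁻¹ : Bˣ) : B) + 1) = -((z * (W + 1)) * ((W⁻¹ : Bˣ) : B)) := by
        have : (z * ((W : B) + 1)) * ((W⁻¹ : Bˣ) : B) =
            z * ((W : B) * ((W⁻¹ : Bˣ) : B)) + z * ((W⁻¹ : Bˣ) : B) := by ring
        rw [this, e1]; ring
      rw [e2, hz, sub_mul, e1]; ring
    have hg' : g * (1 - (-ζ) • (-z)) = 1 := by rwa [neg_smul_neg]
    have hb := half_bound ((W⁻¹ : Bˣ) : B) (-z) C K hC' hz' (-ζ) g hg' (by simpa using h) R hR1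
      (by rwa [norm_neg])
    have habs : |ζ.re| = (-ζ).re := by rw [abs_of_neg h]; simp
    rw [habs]
    refine hb.trans ?_
    rw [hRpow, ← mul_assoc]
    gcongr
    exact le_add_of_nonneg_left (norm_nonneg _)
  · rw [h]
    simp only [abs_zero, mul_zero]
    rw [zero_pow (Nat.succ_ne_zero K), mul_zero]
    positivity
  · have hb := half_bound (W : B) z C K hC hz ζ g hg h R hR1 hR
    rw [abs_of_pos h]
    refine hb.trans ?_
    rw [hRpow, ← mul_assoc]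
    gcongr
    exact le_add_of_nonneg_right (norm_nonneg _)

/-- a Gelfand-Hille theorem: a unit congruent to one modulo the radical, whose powers grow
polynomially in both directions, differs from one by a nilpotent element -/
theorem hille (W : Bˣ) (hr : (W : B) - 1 ∈ Ring.jacobson B) (C : ℝ) (K : ℕ)
    (hC : ∀ n : ℕ, ‖(W : B) ^ n‖ ≤ C * ((n : ℝ) + 1) ^ K)
    (hC' : ∀ n : ℕ, ‖((W⁻¹ : Bˣ) : B) ^ n‖ ≤ C * ((n : ℝ) + 1) ^ K) :
    ((W : B) - 1) ^ (2 * (K + 1)) = 0 := by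
  have hu : IsUnit ((W : B) + 1) := by
    have h1 : (W : B) + 1 = (2 : ℂ) • (1 : B) + ((W : B) - 1) := by
      rw [two_smul]; ring
    rw [h1]
    exact isUnit_smul_add hr two_ne_zero
  obtain ⟨U, hU⟩ := hu
  set z : B := ((W : B) - 1) * ((U⁻¹ : Bˣ) : B) with hzdef
  have hz : z * (W + 1) = W - 1 := by
    rw [hzdef, ← hU, mul_assoc, Units.inv_mul, mul_one]
  have hzj : z ∈ Ring.jacobson B := Ideal.mul_mem_right _ _ hr
  have hunit : ∀ ζ : ℂ, IsUnit (1 - ζ • z) := by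
    intro ζ
    have h1 : (1 : B) - ζ • z = 1 + (-ζ) • z := by rw [neg_smul]; ring
    rw [h1]
    exact isUnit_one_add (smul_mem_jac hzj _)
  let g : ℂ → B := fun ζ => Ring.inverse (1 - ζ • z)
  have hg1 : ∀ ζ, g ζ * (1 - ζ • z) = 1 := fun ζ => Ring.inverse_mul_cancel _ (hunit ζ)
  have hgz : ∀ ζ, g ζ = 1 + ζ • (z * g ζ) := by
    intro ζ
    have h1 := hg1 ζ
    have h2 : g ζ * (1 - ζ • z) = g ζ - ζ • (z * g ζ) := by
      rw [mul_sub, mul_one, mul_smul_comm, mul_comm]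
    rw [h2] at h1
    exact eq_add_of_sub_eq h1
  have hgd : Differentiable ℂ g := by
    intro ζ
    have h1 : DifferentiableAt ℂ (Ring.inverse : B → B) (1 - ζ • z) :=
      differentiableAt_inverse (hunit ζ)
    have h2 : DifferentiableAt ℂ (fun ζ : ℂ => (1 : B) - ζ • z) ζ := by fun_prop
    exact h1.comp ζ h2
  set M : ℝ := (‖(W : B) + 1‖ + ‖((W⁻¹ : Bˣ) : B) + 1‖) * (C * K.factorial) * 2 ^ (2 * K + 1)
    with hM
  have hmain : ∀ R : ℝ, 1 ≤ R → ‖(1 + (R : ℂ) ^ 2 • z ^ 2) ^ (K + 1)‖ ≤ M * R ^ K := by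
    intro R hR1
    have hR0 : 0 < R := by linarith
    have h1 := circ_pow z g hgd hgz hR0 (K + 1) 0
    have hpi : (2 * Real.pi * I : ℂ) ≠ 0 := by
      simp [Real.pi_ne_zero, Complex.I_ne_zero]
    have h2 : (1 + (R : ℂ) ^ 2 • z ^ 2) ^ (K + 1) = (2 * Real.pi * I : ℂ)⁻¹ •
        (∮ ζ in C(0, R), ((ζ ^ (2 * (K + 1) + 0 + 1))⁻¹ *
          (ζ ^ 2 + (R : ℂ) ^ 2) ^ (K + 1)) • g ζ) := by
      rw [h1, smul_smul, inv_mul_cancel₀ hpi, one_smul, pow_zero, one_mul]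
    rw [h2]
    have h3 : ∀ ζ ∈ sphere (0 : ℂ) R, ‖((ζ ^ (2 * (K + 1) + 0 + 1))⁻¹ *
        (ζ ^ 2 + (R : ℂ) ^ 2) ^ (K + 1)) • g ζ‖ ≤ (R ^ (2 * K + 3))⁻¹ * (M * R ^ (3 * K + 2)) := by
      intro ζ hζ
      have hζR : ‖ζ‖ = R := by simpa using hζ
      have hb := circle_bound W z C K hC hC' hz ζ (g ζ) (hg1 ζ) R hR1 hζR
      rw [norm_smul, norm_mul, norm_inv, norm_pow, norm_pow, hζR]
      have e : 2 * (K + 1) + 0 + 1 = 2 * K + 3 := by ring
      rw [e, mul_assoc, mul_comm (‖ζ ^ 2 + (R : ℂ) ^ 2‖ ^ (K + 1))]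
      gcongr
    refine (circleIntegral.norm_two_pi_i_inv_smul_integral_le_of_norm_le_const hR0.le h3).trans ?_
    apply le_of_eq
    have e1 : R ^ (3 * K + 2) * R = R ^ (2 * K + 3) * R ^ K := by
      rw [← pow_succ, ← pow_add]; congr 1; ring
    have e2 : R ^ (2 * K + 3) ≠ 0 := by positivity
    field_simp
    linear_combination M * e1
  have hlim : ∀ t : ℝ, 0 < t → t ≤ 1 → ‖(((t : ℂ) ^ 2) • (1 : B) + z ^ 2) ^ (K + 1)‖ ≤ M * t := by
    intro t ht ht1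
    have hM0 : 0 ≤ M := by
      have h0 := hmain 1 le_rfl
      rw [one_pow, mul_one] at h0
      exact (norm_nonneg _).trans h0
    have h1 := hmain t⁻¹ ((one_le_inv₀ ht).mpr ht1)
    have htc : (t : ℂ) ≠ 0 := by exact_mod_cast ht.ne'
    have h2 : ((t : ℂ) ^ 2) • (1 : B) + z ^ 2 =
        ((t : ℂ) ^ 2) • (1 + ((t⁻¹ : ℝ) : ℂ) ^ 2 • z ^ 2) := by
      rw [smul_add, smul_smul]
      congr 1
      have : (t : ℂ) ^ 2 * ((t⁻¹ : ℝ) : ℂ) ^ 2 = 1 := by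
        push_cast
        field_simp
      rw [this, one_smul]
    rw [h2, smul_pow, norm_smul]
    have h3 : ‖((t : ℂ) ^ 2) ^ (K + 1)‖ = (t ^ 2) ^ (K + 1) := by
      rw [norm_pow, norm_pow, Complex.norm_real, Real.norm_eq_abs, abs_of_pos ht]
    rw [h3]
    calc (t ^ 2) ^ (K + 1) * ‖(1 + ((t⁻¹ : ℝ) : ℂ) ^ 2 • z ^ 2) ^ (K + 1)‖ ≤
        (t ^ 2) ^ (K + 1) * (M * (t⁻¹) ^ K) := by gcongr
      _ = M * (t ^ (K + 1) * t) := by
          have e : (t ^ 2) ^ (K + 1) = t ^ K * (t ^ (K + 1) * t) := by ring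
          rw [e, inv_pow]
          field_simp
      _ ≤ M * (1 * t) := by
          gcongr
          exact pow_le_one₀ ht.le ht1
      _ = M * t := by ring
  have hz0 : (z ^ 2) ^ (K + 1) = 0 := by
    have hT1 : Tendsto (fun t : ℝ => ‖(((t : ℂ) ^ 2) • (1 : B) + z ^ 2) ^ (K + 1)‖)
        (𝓝[>] (0 : ℝ)) (𝓝 ‖((((0 : ℝ) : ℂ) ^ 2) • (1 : B) + z ^ 2) ^ (K + 1)‖) := by
      apply tendsto_nhdsWithin_of_tendsto_nhds
      have : Continuous (fun t : ℝ => ‖(((t : ℂ) ^ 2) • (1 : B) + z ^ 2) ^ (K + 1)‖) := by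
        fun_prop
      exact this.tendsto 0
    have hT2 : Tendsto (fun t : ℝ => M * t) (𝓝[>] (0 : ℝ)) (𝓝 (M * 0)) := by
      apply tendsto_nhdsWithin_of_tendsto_nhds
      exact (continuous_const.mul continuous_id).tendsto 0
    have hle : ‖((((0 : ℝ) : ℂ) ^ 2) • (1 : B) + z ^ 2) ^ (K + 1)‖ ≤ M * 0 := by
      refine le_of_tendsto_of_tendsto hT1 hT2 ?_
      have hmem : Set.Ioc (0 : ℝ) 1 ∈ 𝓝[>] (0 : ℝ) := Ioc_mem_nhdsGT one_pos
      filter_upwards [hmem] with t ht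
      exact hlim t ht.1 ht.2
    rw [mul_zero] at hle
    have h0 := norm_le_zero_iff.mp hle
    simpa using h0
  have hW : (W : B) - 1 = z * (W + 1) := hz.symm
  rw [hW, mul_pow, pow_mul, hz0, zero_mul]

end hille

end Pool.Agent.H21.HP
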