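import Mathlib

open Finset fwdDiff

namespace Pool.Agent.H21.HP

section nil

variable {B G : Type*} [CommRing B] [Algebra ℂ B] [CommMonoid G]

lemma alt_sum_pow (M : ℕ) :
    ∑ j ∈ range (M + 1), ((-1 : ℤ) ^ (M - j) * (M.choose j : ℤ)) * ((j : ℤ) ^ M) =
      (M.factorial : ℤ) := by
  have h1 := congrFun (fwdDiff_iter_eq_factorial (R := ℤ) (n := M)) 0
  rw [fwdDiff_iter_eq_sum_shift] at h1
  simpa using h1

lemma alt_sum_zero (u : G →* B) (M : ℕ) (hu : ∀ g, (u g - 1) ^ M = 0) (g : G) :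
    ∑ j ∈ range (M + 1), (((-1 : ℤ) ^ (M - j) * (M.choose j : ℤ) : ℤ) : B) * (u g) ^ j = 0 := by
  have h := hu g
  rw [sub_eq_add_neg, add_pow] at h
  rw [← h]
  apply sum_congr rfl
  intro j _
  push_cast
  ring

lemma alt_sum_prod (u : G →* B) (M : ℕ) (hu : ∀ g, (u g - 1) ^ M = 0) (s : ℕ → G) (k : ℕ) :
    ∑ j ∈ range (M + 1), (((-1 : ℤ) ^ (M - j) * (M.choose j : ℤ) : ℤ) : B) *
      ∏ i ∈ range k, ((u (s i)) ^ j - 1) = 0 := by
  have h1 : ∀ j : ℕ, ∏ i ∈ range k, ((u (s i)) ^ j - 1) =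
      ∑ t ∈ (range k).powerset, (∏ i ∈ (range k) \ t, (-1 : B)) * (u (∏ i ∈ t, s i)) ^ j := by
    intro j
    simp only [sub_eq_add_neg]
    rw [prod_add]
    apply sum_congr rfl
    intro t _
    rw [map_prod, prod_pow, mul_comm]
  simp only [h1, mul_sum]
  rw [sum_comm]
  apply sum_eq_zero
  intro t _
  have h2 := alt_sum_zero u M hu (∏ i ∈ t, s i)
  calc _ = (∏ i ∈ (range k) \ t, (-1 : B)) * ∑ j ∈ range (M + 1),
      (((-1 : ℤ) ^ (M - j) * (M.choose j : ℤ) : ℤ) : B) * (u (∏ i ∈ t, s i)) ^ j := by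
        rw [mul_sum]
        apply sum_congr rfl
        intro j _
        ring
    _ = 0 := by rw [h2, mul_zero]

/-- polarisation: if all `(u g - 1) ^ M` vanish, then so do all products of `M` factors -/
theorem prod_zero (u : G →* B) (M : ℕ) (hu : ∀ g, (u g - 1) ^ M = 0) (s : ℕ → G) :
    ∏ i ∈ range M, (u (s i) - 1) = 0 := by
  have h1 := alt_sum_prod u M hu s M
  set S : B := ∑ j ∈ range (M + 1), (((-1 : ℤ) ^ (M - j) * (M.choose j : ℤ) : ℤ) : B) *
      ∏ i ∈ range M, ∑ l ∈ range j, (u (s i)) ^ l with hS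
  have h2 : (∏ i ∈ range M, (u (s i) - 1)) * S = 0 := by
    rw [← h1, hS, mul_sum]
    apply sum_congr rfl
    intro j _
    rw [mul_left_comm, ← prod_mul_distrib]
    congr 1
    apply prod_congr rfl
    intro i _
    rw [mul_geom_sum]
  have hnil : S - (M.factorial : B) ∈ nilradical B := by
    rw [← Ideal.Quotient.eq_zero_iff_mem, map_sub, sub_eq_zero, hS, map_sum]
    have hq : ∀ g, Ideal.Quotient.mk (nilradical B) (u g) = 1 := by
      intro g
      rw [← sub_eq_zero, ← map_one (Ideal.Quotient.mk (nilradical B)), ← map_sub,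
        Ideal.Quotient.eq_zero_iff_mem]
      exact ⟨M, hu g⟩
    have h3 := congrArg (Int.cast : ℤ → B ⧸ nilradical B) (alt_sum_pow M)
    push_cast at h3
    rw [map_natCast, ← h3]
    apply sum_congr rfl
    intro j _
    rw [map_mul, map_prod]
    congr 1
    · push_cast; simp
    · simp [hq]
  have hunit : IsUnit S := by
    have h4 : IsUnit ((M.factorial : B)) := by
      have h5 : ((M.factorial : B)) = algebraMap ℂ B (M.factorial : ℂ) := by simp
      rw [h5]
      exact (isUnit_iff_ne_zero.mpr (by exact_mod_cast M.factorial_ne_zero)).map _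
    have h6 : IsNilpotent (S - (M.factorial : B)) := hnil
    have h7 := h6.isUnit_add_left_of_commute h4 (Commute.all _ _)
    rwa [add_sub_cancel] at h7
  exact (hunit.mul_left_eq_zero).mp h2

lemma ideal_pow_le (u : G →* B) (k : ℕ) :
    (Ideal.span (Set.range fun g => u g - 1)) ^ k ≤
      Ideal.span (Set.range fun s : ℕ → G => ∏ i ∈ range k, (u (s i) - 1)) := by
  induction k with
  | zero =>
    rw [pow_zero, Ideal.one_eq_top, top_le_iff, Ideal.eq_top_iff_one]
    exact Ideal.subset_span ⟨fun _ => 1, by simp⟩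
  | succ k ih =>
    rw [pow_succ]
    refine (Ideal.mul_mono_left ih).trans ?_
    rw [Ideal.span_mul_span', Ideal.span_le]
    rintro x hx
    obtain ⟨a, ⟨s, rfl⟩, b, ⟨g, rfl⟩, rfl⟩ := Set.mem_mul.mp hx
    apply Ideal.subset_span
    refine ⟨fun i => if i < k then s i else g, ?_⟩
    simp only
    rw [prod_range_succ]
    congr 1
    · apply prod_congr rfl
      intro i hi
      rw [if_pos (mem_range.mp hi)]
    · rw [if_neg (lt_irrefl k)]

/-- the ideal generated by the differences is nilpotent -/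
theorem ideal_pow_zero (u : G →* B) (M : ℕ) (hu : ∀ g, (u g - 1) ^ M = 0) :
    (Ideal.span (Set.range fun g => u g - 1)) ^ M = ⊥ := by
  rw [eq_bot_iff]
  refine (ideal_pow_le u M).trans ?_
  rw [Ideal.span_le]
  rintro _ ⟨s, rfl⟩
  exact prod_zero u M hu s

end nil

end Pool.Agent.H21.HP
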