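import Mathlib
import Pool.Agent.H21.HP.HilleB
import Pool.Agent.H21.HP.Nil

open Filter Topology

namespace Pool.Agent.H21.HP

/-- a point outside a closed subspace is separated from it by a functional -/
lemma sep {B : Type*} [NormedAddCommGroup B] [NormedSpace ℂ B] (S : Submodule ℂ B)
    (hS : IsClosed (S : Set B)) (x : B)
    (h : ∀ l : B →L[ℂ] ℂ, (∀ y ∈ S, l y = 0) → l x = 0) : x ∈ S := by
  have := hS
  have h0 : (Submodule.Quotient.mk x : B ⧸ S) = 0 := by
    apply SeparatingDual.eq_zero_of_forall_dual_eq_zero (R := ℂ)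
    intro f
    have := h (f.comp S.mkQL) (fun y hy => by
      have hy0 : S.mkQL y = 0 := by
        rw [Submodule.mkQL_apply]
        exact (Submodule.Quotient.mk_eq_zero S).mpr hy
      rw [ContinuousLinearMap.comp_apply, hy0, map_zero])
    simpa using this
  exact (Submodule.Quotient.mk_eq_zero S).mp h0

section main

variable {A B : Type*} [NormedCommRing A] [NormedAlgebra ℂ A] [NormedCommRing B]
  [NormedAlgebra ℂ B]

/-- the closed powers of an ideal as complex subspaces -/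
noncomputable def J (N : Ideal B) (j : ℕ) : Submodule ℂ B :=
  ((N ^ j).restrictScalars ℂ).topologicalClosure

lemma mem_J {N : Ideal B} {j : ℕ} {x : B} : x ∈ J N j ↔ x ∈ closure ((N ^ j : Ideal B) : Set B) :=
  Iff.rfl

lemma mul_mem_J {N : Ideal B} {i j : ℕ} {x y : B} (hx : x ∈ J N i) (hy : y ∈ J N j) :
    x * y ∈ J N (i + j) := by
  rw [mem_J] at *
  refine map_mem_closure₂ continuous_mul hx hy ?_
  intro a ha b hb
  rw [pow_add]
  exact Ideal.mul_mem_mul ha hb

lemma mul_left_mem_J {N : Ideal B} {j : ℕ} {x : B} (y : B) (hx : x ∈ J N j) :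
    y * x ∈ J N j := by
  rw [mem_J] at *
  exact map_mem_closure (continuous_const.mul continuous_id) hx
    (fun a ha => Ideal.mul_mem_left _ _ ha)

lemma J_anti {N : Ideal B} {i j : ℕ} (h : i ≤ j) : J N j ≤ J N i := by
  intro x hx
  rw [mem_J] at *
  exact closure_mono (Ideal.pow_le_pow_right h) hx

/-- weak amenability kills a difference of homomorphisms modulo its square -/
lemma step (hWA : ∀ D : A →L[ℂ] (A →L[ℂ] ℂ),
      (∀ a b x : A, D (a * b) x = D b (x * a) + D a (b * x)) → ∀ a x, D a x = 0)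
    (φ ψ : A →ₙₐ[ℂ] B) (hφ : Continuous φ) (hψ : Continuous ψ) (h1 : φ 1 = ψ 1)
    (N : Ideal B) (j : ℕ) (hj : 1 ≤ j) (h : ∀ a, φ a - ψ a ∈ J N j) :
    ∀ a, φ a - ψ a ∈ J N (j + 1) := by
  intro a
  apply sep _ (Submodule.isClosed_topologicalClosure _)
  intro l hl
  let φL : A →L[ℂ] B := ⟨(φ : A →ₗ[ℂ] B), hφ⟩
  let ψL : A →L[ℂ] B := ⟨(ψ : A →ₗ[ℂ] B), hψ⟩
  have hφL : ∀ x, φL x = φ x := fun _ => rfl
  have hψL : ∀ x, ψL x = ψ x := fun _ => rfl
  -- the bilinear map (a, x) ↦ l ((φ a - ψ a) * φ x)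
  let m : B →L[ℂ] B →L[ℂ] B := ContinuousLinearMap.mul ℂ B
  let D : A →L[ℂ] (A →L[ℂ] ℂ) :=
    ((ContinuousLinearMap.compL ℂ A B ℂ l).comp
      ((ContinuousLinearMap.compL ℂ A B B).flip φL)).comp (m.comp (φL - ψL))
  have hD : ∀ a x, D a x = l ((φ a - ψ a) * φ x) := fun a x => rfl
  have hder : ∀ a b x : A, D (a * b) x = D b (x * a) + D a (b * x) := by
    intro a b x
    have hzero : l ((φ a - ψ a) * (φ b - ψ b) * φ x) = 0 := by
      apply hl
      rw [mul_comm]
      exact mul_left_mem_J _ (J_anti (by omega) (mul_mem_J (h a) (h b)))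
    rw [hD, hD, hD, map_mul φ a b, map_mul ψ a b, map_mul φ x a, map_mul φ b x, ← map_add]
    have e : (φ a * φ b - ψ a * ψ b) * φ x =
        ((φ b - ψ b) * (φ x * φ a) + (φ a - ψ a) * (φ b * φ x)) -
          (φ a - ψ a) * (φ b - ψ b) * φ x := by ring
    rw [e, map_sub, hzero, sub_zero]
  have h0 := hWA D hder a 1
  rw [hD] at h0
  have e2 : (φ a - ψ a) * φ 1 = φ a - ψ a := by
    rw [sub_mul, ← map_mul, mul_one, h1, ← map_mul, mul_one]
  rwa [e2] at h0

/-- iteration of the step along a nilpotent ideal -/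
lemma nilpotent_case (hWA : ∀ D : A →L[ℂ] (A →L[ℂ] ℂ),
      (∀ a b x : A, D (a * b) x = D b (x * a) + D a (b * x)) → ∀ a x, D a x = 0)
    (φ ψ : A →ₙₐ[ℂ] B) (hφ : Continuous φ) (hψ : Continuous ψ) (h1 : φ 1 = ψ 1)
    (N : Ideal B) (M : ℕ) (hN : N ^ M = ⊥) (h : ∀ a, φ a - ψ a ∈ J N 1) :
    φ = ψ := by
  have hall : ∀ j, 1 ≤ j → ∀ a, φ a - ψ a ∈ J N j := by
    intro j hj
    induction j, hj using Nat.le_induction with
    | base => exact h
    | succ j hj ih => exact step hWA φ ψ hφ hψ h1 N j hj ih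
  apply NonUnitalAlgHom.ext
  intro a
  have h2 := hall (M + 1) (by omega) a
  rw [mem_J, pow_succ, hN, Ideal.bot_mul] at h2
  have h3 : closure ((⊥ : Ideal B) : Set B) = {0} := by
    rw [Submodule.bot_coe]
    exact closure_singleton
  rw [h3, Set.mem_singleton_iff, sub_eq_zero] at h2
  exact h2

end main

end Pool.Agent.H21.HP
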