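import Mathlib
import Pool.Agent.H21.HP.Core

open Filter Topology

namespace Pool.Agent.H21.HP

section group

variable {A B : Type*} [NormedCommRing A] [NormedAlgebra ℂ A] [NormedCommRing B]
  [NormedAlgebra ℂ B]

lemma map_one_eq (φ ψ : A →ₙₐ[ℂ] B) (h : ∀ a, φ a - ψ a ∈ Ring.jacobson B) : φ 1 = ψ 1 := by
  have hp : φ 1 * φ 1 = φ 1 := by rw [← map_mul, mul_one]
  have hq : ψ 1 * ψ 1 = ψ 1 := by rw [← map_mul, mul_one]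
  have hu : IsUnit (1 + (-(φ 1 - ψ 1)) * (φ 1 - ψ 1)) :=
    isUnit_one_add (Ideal.mul_mem_left _ _ (h 1))
  have h0 : (φ 1 - ψ 1) * (1 + (-(φ 1 - ψ 1)) * (φ 1 - ψ 1)) = 0 := by
    linear_combination (-(φ 1) + 3 * ψ 1 - 1) * hp + (ψ 1 - 3 * φ 1 + 1) * hq
  have h1 := (hu.mul_left_eq_zero).mp h0
  exact sub_eq_zero.mp h1

/-- the homomorphism g ↦ 1 - p + φ(g⁻¹)ψ(g) -/
noncomputable def uHom (φ ψ : A →ₙₐ[ℂ] B) (h1 : φ 1 = ψ 1) : Aˣ →* B where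
  toFun g := 1 - φ 1 + φ ((g⁻¹ : Aˣ) : A) * ψ (g : A)
  map_one' := by
    have hp : φ 1 * φ 1 = φ 1 := by rw [← map_mul, mul_one]
    simp only [inv_one, Units.val_one]
    rw [← h1, hp]; ring
  map_mul' g k := by
    have hp : φ 1 * φ 1 = φ 1 := by rw [← map_mul, mul_one]
    have hg : φ 1 * φ ((g⁻¹ : Aˣ) : A) = φ ((g⁻¹ : Aˣ) : A) := by rw [← map_mul, one_mul]
    have hk : φ 1 * φ ((k⁻¹ : Aˣ) : A) = φ ((k⁻¹ : Aˣ) : A) := by rw [← map_mul, one_mul]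
    rw [mul_inv, Units.val_mul, Units.val_mul, map_mul, map_mul]
    linear_combination (-1 : B) * hp + (ψ (g : A)) * hg + (ψ (k : A)) * hk

lemma uHom_apply (φ ψ : A →ₙₐ[ℂ] B) (h1 : φ 1 = ψ 1) (g : Aˣ) :
    uHom φ ψ h1 g = 1 - φ 1 + φ ((g⁻¹ : Aˣ) : A) * ψ (g : A) := rfl

lemma uHom_sub_one (φ ψ : A →ₙₐ[ℂ] B) (h1 : φ 1 = ψ 1) (g : Aˣ) :
    uHom φ ψ h1 g - 1 = -(φ ((g⁻¹ : Aˣ) : A)) * (φ (g : A) - ψ (g : A)) := by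
  have hg : φ ((g⁻¹ : Aˣ) : A) * φ (g : A) = φ 1 := by rw [← map_mul, Units.inv_mul]
  rw [uHom_apply]
  linear_combination hg

lemma diff_eq (φ ψ : A →ₙₐ[ℂ] B) (h1 : φ 1 = ψ 1) (g : Aˣ) :
    φ (g : A) - ψ (g : A) = -(φ (g : A)) * (uHom φ ψ h1 g - 1) := by
  have hg : φ (g : A) * φ ((g⁻¹ : Aˣ) : A) = φ 1 := by rw [← map_mul, Units.mul_inv]
  have hg1 : φ (g : A) * φ 1 = φ (g : A) := by rw [← map_mul, mul_one]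
  have hg2 : φ 1 * ψ (g : A) = ψ (g : A) := by rw [h1, ← map_mul, one_mul]
  rw [uHom_apply]
  linear_combination hg2 - hg1 + hg * ψ (g : A)

/-- growth of the powers of `uHom` -/
lemma uHom_growth (φ ψ : A →ₙₐ[ℂ] B) (hφ : Continuous φ) (hψ : Continuous ψ) (h1 : φ 1 = ψ 1)
    (g : Aˣ) (k : ℕ) (C₁ C₂ : ℝ) (hC₁ : ∀ n : ℕ, ‖(g : A) ^ n‖ ≤ C₁ * ((n : ℝ) + 1) ^ k)
    (hC₂ : ∀ n : ℕ, ‖((g⁻¹ : Aˣ) : A) ^ n‖ ≤ C₂ * ((n : ℝ) + 1) ^ k) :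
    ∃ C : ℝ, ∀ n : ℕ, ‖(uHom φ ψ h1 g) ^ n‖ ≤ C * ((n : ℝ) + 1) ^ (2 * k) := by
  let φL : A →L[ℂ] B := ⟨(φ : A →ₗ[ℂ] B), hφ⟩
  let ψL : A →L[ℂ] B := ⟨(ψ : A →ₗ[ℂ] B), hψ⟩
  have hφL : ∀ x, ‖φ x‖ ≤ ‖φL‖ * ‖x‖ := fun x => φL.le_opNorm x
  have hψL : ∀ x, ‖ψ x‖ ≤ ‖ψL‖ * ‖x‖ := fun x => ψL.le_opNorm x
  refine ⟨‖(1 : B) - φ 1‖ + (‖φL‖ * C₂) * (‖ψL‖ * C₁), fun n => ?_⟩
  have hC₁0 : 0 ≤ C₁ := by
    have h0 := hC₁ 0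
    simp only [pow_zero, Nat.cast_zero, zero_add, one_pow, mul_one] at h0
    exact (norm_nonneg _).trans h0
  have hC₂0 : 0 ≤ C₂ := by
    have h0 := hC₂ 0
    simp only [pow_zero, Nat.cast_zero, zero_add, one_pow, mul_one] at h0
    exact (norm_nonneg _).trans h0
  rw [← map_pow, uHom_apply, ← inv_pow, Units.val_pow_eq_pow_val, Units.val_pow_eq_pow_val]
  have hb1 : ‖φ (((g⁻¹ : Aˣ) : A) ^ n)‖ ≤ ‖φL‖ * (C₂ * ((n : ℝ) + 1) ^ k) :=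
    (hφL _).trans (by gcongr; exact hC₂ n)
  have hb2 : ‖ψ ((g : A) ^ n)‖ ≤ ‖ψL‖ * (C₁ * ((n : ℝ) + 1) ^ k) :=
    (hψL _).trans (by gcongr; exact hC₁ n)
  have h1n : (1 : ℝ) ≤ ((n : ℝ) + 1) ^ (2 * k) :=
    one_le_pow₀ (by have : (0 : ℝ) ≤ n := Nat.cast_nonneg n; linarith)
  calc ‖1 - φ 1 + φ (((g⁻¹ : Aˣ) : A) ^ n) * ψ ((g : A) ^ n)‖ ≤
      ‖(1 : B) - φ 1‖ + ‖φ (((g⁻¹ : Aˣ) : A) ^ n)‖ * ‖ψ ((g : A) ^ n)‖ :=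
        (norm_add_le _ _).trans (by gcongr; exact norm_mul_le _ _)
    _ ≤ ‖(1 : B) - φ 1‖ * ((n : ℝ) + 1) ^ (2 * k) +
        (‖φL‖ * (C₂ * ((n : ℝ) + 1) ^ k)) * (‖ψL‖ * (C₁ * ((n : ℝ) + 1) ^ k)) := by
        gcongr
        exact le_mul_of_one_le_right (norm_nonneg _) h1n
    _ = (‖(1 : B) - φ 1‖ + (‖φL‖ * C₂) * (‖ψL‖ * C₁)) * ((n : ℝ) + 1) ^ (2 * k) := by
        rw [two_mul, pow_add]; ring

/-- the theorem for unital targets and arbitrary continuous homomorphisms -/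
theorem unital_case [CompleteSpace B]
    (hWA : ∀ D : A →L[ℂ] (A →L[ℂ] ℂ),
      (∀ a b x : A, D (a * b) x = D b (x * a) + D a (b * x)) → ∀ a x, D a x = 0)
    (G : Subgroup Aˣ) (hG : Dense (Submodule.span ℂ ((fun g : Aˣ => (g : A)) '' (G : Set Aˣ)) : Set A))
    (k : ℕ) (hk : ∀ g ∈ G, ∃ C : ℝ, ∀ n : ℕ, ‖(g : A) ^ n‖ ≤ C * ((n : ℝ) + 1) ^ k)
    (φ ψ : A →ₙₐ[ℂ] B) (hφ : Continuous φ) (hψ : Continuous ψ)
    (h : ∀ a, φ a - ψ a ∈ Ring.jacobson B) : φ = ψ := by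
  have h1 := map_one_eq φ ψ h
  let u : G →* B := (uHom φ ψ h1).comp G.subtype
  have hu : ∀ g : G, u g = uHom φ ψ h1 (g : Aˣ) := fun _ => rfl
  have hnil : ∀ g : G, (u g - 1) ^ (2 * (2 * k + 1)) = 0 := by
    intro g
    obtain ⟨C₁, hC₁⟩ := hk g g.2
    obtain ⟨C₂, hC₂⟩ := hk ((g : Aˣ)⁻¹) (G.inv_mem g.2)
    obtain ⟨Ca, hCa⟩ := uHom_growth φ ψ hφ hψ h1 g k C₁ C₂ hC₁ hC₂
    obtain ⟨Cb, hCb⟩ := uHom_growth φ ψ hφ hψ h1 (g : Aˣ)⁻¹ k C₂ C₁ hC₂ (by rwa [inv_inv])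
    have hW : ((u.toHomUnits g : Bˣ) : B) = u g := rfl
    have hW' : (((u.toHomUnits g)⁻¹ : Bˣ) : B) = u g⁻¹ := by rw [← map_inv]; rfl
    have hmax : ∀ n : ℕ, (0 : ℝ) ≤ ((n : ℝ) + 1) ^ (2 * k) := fun n => by positivity
    have key := hille (u.toHomUnits g) ?_ (max Ca Cb) (2 * k) ?_ ?_
    · rwa [hW] at key
    · rw [hW, hu, uHom_sub_one]
      exact Ideal.mul_mem_left _ _ (h _)
    · intro n
      rw [hW, hu]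
      exact (hCa n).trans (mul_le_mul_of_nonneg_right (le_max_left _ _) (hmax n))
    · intro n
      rw [hW', hu]
      exact (hCb n).trans (mul_le_mul_of_nonneg_right (le_max_right _ _) (hmax n))
  set N : Ideal B := Ideal.span (Set.range fun g => u g - 1) with hN
  have hNz := ideal_pow_zero u _ hnil
  refine nilpotent_case hWA φ ψ hφ hψ h1 N _ hNz ?_
  -- the differences lie in the closure of the ideal
  let φL : A →L[ℂ] B := ⟨(φ : A →ₗ[ℂ] B), hφ⟩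
  let ψL : A →L[ℂ] B := ⟨(ψ : A →ₗ[ℂ] B), hψ⟩
  let P : Submodule ℂ A := (J N 1).comap ((φL - ψL : A →L[ℂ] B) : A →ₗ[ℂ] B)
  have hP : ∀ a, a ∈ P ↔ φ a - ψ a ∈ J N 1 := fun a => Iff.rfl
  have hPc : IsClosed (P : Set A) :=
    (Submodule.isClosed_topologicalClosure _).preimage (φL - ψL).continuous
  have hle : Submodule.span ℂ ((fun g : Aˣ => (g : A)) '' (G : Set Aˣ)) ≤ P := by
    rw [Submodule.span_le]
    rintro _ ⟨g, hg, rfl⟩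
    show _ ∈ P
    rw [hP, diff_eq φ ψ h1 g, mem_J]
    apply subset_closure
    rw [pow_one]
    exact Ideal.mul_mem_left _ _ (Ideal.subset_span ⟨⟨g, hg⟩, rfl⟩)
  intro a
  rw [← hP]
  have h2 : closure (Submodule.span ℂ ((fun g : Aˣ => (g : A)) '' (G : Set Aˣ)) : Set A) ⊆ P :=
    closure_minimal hle hPc
  exact h2 (hG a)

end group

end Pool.Agent.H21.HP
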