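import Mathlib
import Pool.Agent.H21.HP.HilleB

open Complex Filter Topology Metric

namespace Pool.Agent.H21.HP

section qn

variable {B : Type*} [NormedCommRing B] [NormedAlgebra ℂ B] [CompleteSpace B]

omit [NormedAlgebra ℂ B] in
/-- quasi-nilpotent elements lie in the radical -/
lemma mem_jac_of_qn (x : B) (hx : ∀ ε : ℝ, 0 < ε → ∃ C : ℝ, 0 ≤ C ∧ ∃ K : ℕ, ∀ k : ℕ, K ≤ k →
    ‖x ^ k‖ ≤ C * ε ^ k) : x ∈ Ring.jacobson B := by
  rw [← Ideal.jacobson_bot, Ideal.mem_jacobson_bot]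
  intro y
  obtain ⟨C, hC0, K, hC⟩ := hx (1 / (2 * (‖y‖ + 1))) (by positivity)
  have hlim : Tendsto (fun k : ℕ => C * (1 / 2 : ℝ) ^ k) atTop (𝓝 (C * 0)) :=
    (tendsto_pow_atTop_nhds_zero_of_lt_one (by norm_num) (by norm_num)).const_mul C
  rw [mul_zero] at hlim
  obtain ⟨k, hk, hk1, hkK⟩ := ((hlim.eventually_lt_const one_pos).and
    ((eventually_ge_atTop 1).and (eventually_ge_atTop K))).exists
  have h1 : ‖(-(x * y)) ^ k‖ < 1 := by
    have h2 : ‖(-(x * y)) ^ k‖ = ‖x ^ k * y ^ k‖ := by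
      rw [← neg_one_mul, mul_pow, mul_pow]
      rcases neg_one_pow_eq_or B k with h | h <;> rw [h] <;> simp
    rw [h2]
    have h3 : ‖y ^ k‖ ≤ (‖y‖ + 1) ^ k :=
      (norm_pow_le' y (by omega)).trans (pow_le_pow_left₀ (norm_nonneg _) (by linarith) k)
    calc ‖x ^ k * y ^ k‖ ≤ ‖x ^ k‖ * ‖y ^ k‖ := norm_mul_le _ _
      _ ≤ (C * (1 / (2 * (‖y‖ + 1))) ^ k) * (‖y‖ + 1) ^ k := by
          apply mul_le_mul (hC k hkK) h3 (norm_nonneg _) (by positivity)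
      _ = C * (1 / 2) ^ k := by
          rw [mul_assoc, ← mul_pow]
          congr 2
          have : ‖y‖ + 1 ≠ 0 := by positivity
          field_simp
      _ < 1 := hk
  have h3 : IsUnit (1 - (-(x * y)) ^ k) := isUnit_one_sub_of_norm_lt_one h1
  have h4 : (1 - (-(x * y))) ∣ 1 - (-(x * y)) ^ k := by
    have := sub_dvd_pow_sub_pow (1:B) (-(x * y)) k
    rwa [one_pow] at this
  have h5 := isUnit_of_dvd_unit h4 h3
  rwa [sub_neg_eq_add, add_comm] at h5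

omit [NormedAlgebra ℂ B] in
lemma jac_closed : IsClosed (Ring.jacobson B : Set B) := by
  rw [Ring.jacobson_eq_sInf_isMaximal, Submodule.coe_sInf]
  apply isClosed_biInter
  intro I hI
  have hI' : Ideal.IsMaximal I := hI
  exact @Ideal.IsMaximal.isClosed B _ _ I hI'

/-- elements of the radical are quasi-nilpotent -/
lemma qn_of_mem_jac (x : B) (hx : x ∈ Ring.jacobson B) (ε : ℝ) (hε : 0 < ε) :
    ∃ C : ℝ, ∀ k : ℕ, ‖x ^ k‖ ≤ C * ε ^ k := by
  have hunit : ∀ ζ : ℂ, IsUnit (1 - ζ • x) := by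
    intro ζ
    have h1 : (1 : B) - ζ • x = 1 + (-ζ) • x := by rw [neg_smul]; ring
    rw [h1]
    exact isUnit_one_add (smul_mem_jac hx _)
  let g : ℂ → B := fun ζ => Ring.inverse (1 - ζ • x)
  have hg1 : ∀ ζ, g ζ * (1 - ζ • x) = 1 := fun ζ => Ring.inverse_mul_cancel _ (hunit ζ)
  have hgz : ∀ ζ, g ζ = 1 + ζ • (x * g ζ) := by
    intro ζ
    have h1 := hg1 ζ
    have h2 : g ζ * (1 - ζ • x) = g ζ - ζ • (x * g ζ) := by
      rw [mul_sub, mul_one, mul_smul_comm, mul_comm]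
    rw [h2] at h1
    exact eq_add_of_sub_eq h1
  have hgd : Differentiable ℂ g := by
    intro ζ
    have h1 : DifferentiableAt ℂ (Ring.inverse : B → B) (1 - ζ • x) :=
      differentiableAt_inverse (hunit ζ)
    have h2 : DifferentiableAt ℂ (fun ζ : ℂ => (1 : B) - ζ • x) ζ := by fun_prop
    exact h1.comp ζ h2
  have hR : 0 < ε⁻¹ := inv_pos.mpr hε
  obtain ⟨M, hM⟩ := (isCompact_sphere (0 : ℂ) ε⁻¹).exists_bound_of_continuousOn
    hgd.continuous.continuousOn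
  refine ⟨M, fun k => ?_⟩
  have hpi : (2 * Real.pi * I : ℂ) ≠ 0 := by
    simp [Real.pi_ne_zero, Complex.I_ne_zero]
  have h1 := circ_zero x g hgd hgz hR k
  have h2 : x ^ k = (2 * Real.pi * I : ℂ)⁻¹ •
      (∮ ζ in C(0, ε⁻¹), (ζ ^ (k + 1))⁻¹ • g ζ) := by
    rw [h1, smul_smul, inv_mul_cancel₀ hpi, one_smul]
  rw [h2]
  have h3 : ∀ ζ ∈ sphere (0 : ℂ) ε⁻¹, ‖(ζ ^ (k + 1))⁻¹ • g ζ‖ ≤ ε ^ (k + 1) * M := by
    intro ζ hζ
    have hζR : ‖ζ‖ = ε⁻¹ := by simpa using hζ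
    rw [norm_smul, norm_inv, norm_pow, hζR, inv_pow, inv_inv]
    exact mul_le_mul_of_nonneg_left (hM ζ hζ) (by positivity)
  refine (circleIntegral.norm_two_pi_i_inv_smul_integral_le_of_norm_le_const hR.le h3).trans ?_
  apply le_of_eq
  rw [pow_succ]
  field_simp

end qn

end Pool.Agent.H21.HP
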