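import Mathlib
import Pool.Agent.H21.HP.Group
import Pool.Agent.H21.HP.QN

open Filter Topology

namespace Pool.Agent.H21.HP

section easy

variable {A B : Type*} [NormedCommRing A] [NormedAlgebra ℂ A] [NormedCommRing B]
  [NormedAlgebra ℂ B]

/-- the defect of a form with respect to an element -/
def dfc (a : A) (F : A → A → ℂ) : A → A → ℂ := fun x y => F (a * x) y - F x (a * y)

lemma dfc_iter (φ ψ : A →ₙₐ[ℂ] B) (l : B →L[ℂ] ℂ) (a : A) (k : ℕ) : ∀ x y : A,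
    (dfc a)^[k] (fun x y => l (φ x * ψ y)) x y = l (φ x * ψ y * (φ a - ψ a) ^ k) := by
  induction k with
  | zero => intro x y; simp
  | succ k ih =>
    intro x y
    rw [Function.iterate_succ_apply']
    show (dfc a)^[k] (fun x y => l (φ x * ψ y)) (a * x) y -
      (dfc a)^[k] (fun x y => l (φ x * ψ y)) x (a * y) = _
    rw [ih, ih, ← map_sub]
    congr 1
    rw [map_mul φ, map_mul ψ]
    ring

/-- the criterion implies the homomorphism property -/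
theorem crit_easy [CompleteSpace B]
    (hcrit : ∀ L : A →L[ℂ] A →L[ℂ] ℂ,
      (∀ a : A, ∀ ε : ℝ, 0 < ε → ∃ C : ℝ, ∀ (k : ℕ) (x y : A),
        ‖(dfc a)^[k] (fun x y => L x y) x y‖ ≤ C * ε ^ k * (‖x‖ * ‖y‖)) →
      ∀ a x y : A, L (a * x) y = L x (a * y))
    (φ ψ : A →ₙₐ[ℂ] B) (hφ : Continuous φ) (hψ : Continuous ψ)
    (h : ∀ a, φ a - ψ a ∈ Ring.jacobson B) : φ = ψ := by
  have h1 := map_one_eq φ ψ h
  apply NonUnitalAlgHom.ext
  intro a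
  rw [← sub_eq_zero]
  apply SeparatingDual.eq_zero_of_forall_dual_eq_zero (R := ℂ)
  intro l
  let φL : A →L[ℂ] B := ⟨(φ : A →ₗ[ℂ] B), hφ⟩
  let ψL : A →L[ℂ] B := ⟨(ψ : A →ₗ[ℂ] B), hψ⟩
  let m : B →L[ℂ] B →L[ℂ] B := ContinuousLinearMap.mul ℂ B
  let L : A →L[ℂ] (A →L[ℂ] ℂ) :=
    ((ContinuousLinearMap.compL ℂ A B ℂ l).comp
      ((ContinuousLinearMap.compL ℂ A B B).flip ψL)).comp (m.comp φL)
  have hL : ∀ x y, L x y = l (φ x * ψ y) := fun x y => rfl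
  have hbal := hcrit L ?_ a 1 1
  · rw [hL, hL, mul_one] at hbal
    have e1 : φ a * ψ 1 = φ a := by rw [← h1, ← map_mul, mul_one]
    have e2 : φ 1 * ψ a = ψ a := by rw [h1, ← map_mul, one_mul]
    rw [e1, e2] at hbal
    rw [map_sub, hbal, sub_self]
  · intro b ε hε
    obtain ⟨C, hC⟩ := qn_of_mem_jac _ (h b) ε hε
    refine ⟨‖l‖ * (‖φL‖ * ‖ψL‖ * C), fun k x y => ?_⟩
    have e : (fun x y => L x y) = fun x y => l (φ x * ψ y) := rfl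
    rw [e, dfc_iter]
    have hb1 : ‖φ x‖ ≤ ‖φL‖ * ‖x‖ := φL.le_opNorm x
    have hb2 : ‖ψ y‖ ≤ ‖ψL‖ * ‖y‖ := ψL.le_opNorm y
    calc ‖l (φ x * ψ y * (φ b - ψ b) ^ k)‖ ≤ ‖l‖ * ‖φ x * ψ y * (φ b - ψ b) ^ k‖ :=
          l.le_opNorm _
      _ ≤ ‖l‖ * ((‖φ x‖ * ‖ψ y‖) * ‖(φ b - ψ b) ^ k‖) := by
          gcongr
          exact (norm_mul_le _ _).trans (by gcongr; exact norm_mul_le _ _)
      _ ≤ ‖l‖ * (((‖φL‖ * ‖x‖) * (‖ψL‖ * ‖y‖)) * (C * ε ^ k)) := by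
          gcongr
          exact hC k
      _ = ‖l‖ * (‖φL‖ * ‖ψL‖ * C) * ε ^ k * (‖x‖ * ‖y‖) := by ring

end easy

end Pool.Agent.H21.HP
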