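import Mathlib
import Pool.Agent.H21.HP.CritA
import Pool.Agent.H21.HP.NA2

open Filter Topology TensorProduct

namespace Pool.Agent.H21.HP

/-! ### Exponential rates -/

/-- a nondecreasing integer valued rate for a sequence of decreasing statements -/
noncomputable def eta (P : ℕ → ℕ → Prop) (k : ℕ) : ℕ :=
  @Nat.findGreatest (fun m => P m k) (Classical.decPred _) k

lemma eta_spec (P : ℕ → ℕ → Prop) (h0 : ∀ k, P 0 k) (k : ℕ) : P (eta P k) k :=
  @Nat.findGreatest_spec 0 (fun m => P m k) (Classical.decPred _) k (Nat.zero_le k) (h0 k)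

lemma eta_mono (P : ℕ → ℕ → Prop) (h0 : ∀ k, P 0 k) (hP : ∀ m j k, j ≤ k → P m j → P m k)
    {j k : ℕ} (hjk : j ≤ k) : eta P j ≤ eta P k := by
  exact @Nat.le_findGreatest _ (fun m => P m k) (Classical.decPred _) k
    ((@Nat.findGreatest_le (fun m => P m j) (Classical.decPred _) j).trans hjk)
    (hP _ j k hjk (eta_spec P h0 j))

lemma eta_ge (P : ℕ → ℕ → Prop) (hP : ∀ m j k, j ≤ k → P m j → P m k)
    (m K : ℕ) (hK : P m K) : ∀ k, K ≤ k → m ≤ k → m ≤ eta P k := by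
  intro k h1 h2
  exact @Nat.le_findGreatest _ (fun m => P m k) (Classical.decPred _) k h2 (hP m K k h1 hK)

/-! ### The weights -/

section weights

variable (et : ℕ → ℕ → ℕ)

/-- the total rate of a multi-index -/
noncomputable def S (μ : ℕ →₀ ℕ) : ℝ := μ.sum fun i k => (1 / 2 : ℝ) ^ (i + 1) * (k * et i k)

lemma S_subset (μ : ℕ →₀ ℕ) (s : Finset ℕ) (hs : μ.support ⊆ s) :
    S et μ = ∑ i ∈ s, (1 / 2 : ℝ) ^ (i + 1) * (μ i * et i (μ i)) := by
  unfold S
  rw [Finsupp.sum_of_support_subset μ hs]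
  intro i _
  simp

lemma S_add (hmono : ∀ i, Monotone (et i)) (μ ν : ℕ →₀ ℕ) :
    S et μ + S et ν ≤ S et (μ + ν) := by
  classical
  have h1 := S_subset et μ (μ.support ∪ ν.support) Finset.subset_union_left
  have h2 := S_subset et ν (μ.support ∪ ν.support) Finset.subset_union_right
  have h3 := S_subset et (μ + ν) (μ.support ∪ ν.support) Finsupp.support_add
  rw [h1, h2, h3, ← Finset.sum_add_distrib]
  apply Finset.sum_le_sum
  intro i _
  rw [← mul_add]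
  apply mul_le_mul_of_nonneg_left _ (by positivity)
  rw [Finsupp.add_apply]
  have e1 : (et i (μ i) : ℝ) ≤ et i (μ i + ν i) := by
    exact_mod_cast hmono i (Nat.le_add_right _ _)
  have e2 : (et i (ν i) : ℝ) ≤ et i (μ i + ν i) := by
    exact_mod_cast hmono i (Nat.le_add_left _ _)
  push_cast
  have e3 : (0 : ℝ) ≤ μ i := Nat.cast_nonneg _
  have e4 : (0 : ℝ) ≤ ν i := Nat.cast_nonneg _
  nlinarith [mul_le_mul_of_nonneg_left e1 e3, mul_le_mul_of_nonneg_left e2 e4]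

lemma S_zero : S et 0 = 0 := by simp [S]

lemma S_single (i k : ℕ) : S et (Finsupp.single i k) = (1 / 2 : ℝ) ^ (i + 1) * (k * et i k) := by
  unfold S
  rw [Finsupp.sum_single_index]
  simp

lemma sum_half_le (s : Finset ℕ) : ∑ i ∈ s, (1 / 2 : ℝ) ^ (i + 1) ≤ 1 := by
  have h1 : Summable (fun i : ℕ => (1 / 2 : ℝ) ^ (i + 1)) := by
    have := (summable_geometric_of_lt_one (r := (1/2 : ℝ)) (by norm_num) (by norm_num))
    exact (summable_nat_add_iff 1).mpr this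
  have h2 : ∑' i : ℕ, (1 / 2 : ℝ) ^ (i + 1) = 1 := by
    have : (fun i : ℕ => (1 / 2 : ℝ) ^ (i + 1)) = fun i : ℕ => (1 / 2 : ℝ) * (1 / 2) ^ i := by
      funext i; rw [pow_succ, mul_comm]
    rw [this, tsum_mul_left, tsum_geometric_two]
    norm_num
  exact (h1.sum_le_tsum s (fun i _ => by positivity)).trans (le_of_eq h2)

/-- the weighted mean is at most the maximum -/
lemma S_le_max (μ : ℕ →₀ ℕ) (hμ : μ ≠ 0) :
    ∃ i, S et μ ≤ μ i * et i (μ i) := by
  have hne : μ.support.Nonempty := Finsupp.support_nonempty_iff.mpr hμ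
  obtain ⟨i, hi, hmax⟩ := Finset.exists_max_image μ.support
    (fun i => (μ i : ℝ) * et i (μ i)) hne
  refine ⟨i, ?_⟩
  rw [S_subset et μ μ.support (Finset.Subset.refl _)]
  calc ∑ j ∈ μ.support, (1 / 2 : ℝ) ^ (j + 1) * (μ j * et j (μ j)) ≤
      ∑ j ∈ μ.support, (1 / 2 : ℝ) ^ (j + 1) * (μ i * et i (μ i)) := by
        apply Finset.sum_le_sum
        intro j hj
        exact mul_le_mul_of_nonneg_left (hmax j hj) (by positivity)
    _ = (∑ j ∈ μ.support, (1 / 2 : ℝ) ^ (j + 1)) * (μ i * et i (μ i)) := by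
        rw [Finset.sum_mul]
    _ ≤ 1 * (μ i * et i (μ i)) := by
        apply mul_le_mul_of_nonneg_right (sum_half_le _) (by positivity)
    _ = _ := one_mul _

end weights

section hard

variable {A : Type} [NormedCommRing A] [NormedAlgebra ℂ A]

/-- the difference of the two copies of an element -/
noncomputable def X (a : A) : A ⊗[ℂ] A := a ⊗ₜ[ℂ] (1 : A) - (1 : A) ⊗ₜ[ℂ] a

lemma X_mul (a x y : A) : X a * (x ⊗ₜ[ℂ] y) = (a * x) ⊗ₜ[ℂ] y - x ⊗ₜ[ℂ] (a * y) := by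
  unfold X
  rw [sub_mul, Algebra.TensorProduct.tmul_mul_tmul, Algebra.TensorProduct.tmul_mul_tmul, one_mul,
    one_mul]

lemma X_smul (c : ℂ) (a : A) : X (c • a) = c • X a := by
  unfold X
  rw [smul_sub, TensorProduct.smul_tmul', TensorProduct.tmul_smul]

/-- the linear functional of a form -/
noncomputable def Lam (L : A →L[ℂ] A →L[ℂ] ℂ) : A ⊗[ℂ] A →ₗ[ℂ] ℂ :=
  TensorProduct.lift ((ContinuousLinearMap.coeLM ℂ).comp (L : A →ₗ[ℂ] (A →L[ℂ] ℂ)))

lemma Lam_tmul (L : A →L[ℂ] A →L[ℂ] ℂ) (x y : A) : Lam L (x ⊗ₜ[ℂ] y) = L x y := by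
  unfold Lam
  rw [TensorProduct.lift.tmul]
  rfl

lemma dfc_Lam (L : A →L[ℂ] A →L[ℂ] ℂ) (a : A) (k : ℕ) : ∀ x y : A,
    (dfc a)^[k] (fun x y => L x y) x y = Lam L (X a ^ k * (x ⊗ₜ[ℂ] y)) := by
  induction k with
  | zero => intro x y; simp [Lam_tmul]
  | succ k ih =>
    intro x y
    rw [Function.iterate_succ_apply']
    show (dfc a)^[k] (fun x y => L x y) (a * x) y -
      (dfc a)^[k] (fun x y => L x y) x (a * y) = _
    rw [ih, ih, ← map_sub, ← mul_sub, ← X_mul, pow_succ, mul_assoc]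

/-- multiplying by further differences of small elements does not increase the bounds -/
lemma bound_prod (L : A →L[ℂ] A →L[ℂ] ℂ) (a : ℕ → A) (ha : ∀ i, ‖a i‖ ≤ 1 / 2) (z : A ⊗[ℂ] A)
    (C : ℝ) (hC : 0 ≤ C) (hz : ∀ x y : A, ‖Lam L (z * (x ⊗ₜ[ℂ] y))‖ ≤ C * (‖x‖ * ‖y‖))
    (μ : ℕ →₀ ℕ) : ∀ x y : A,
      ‖Lam L (z * (μ.prod fun i k => X (a i) ^ k) * (x ⊗ₜ[ℂ] y))‖ ≤ C * (‖x‖ * ‖y‖) := by
  have hpow : ∀ (w : A ⊗[ℂ] A) (_ : ∀ x y : A, ‖Lam L (w * (x ⊗ₜ[ℂ] y))‖ ≤ C * (‖x‖ * ‖y‖))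
      (i k : ℕ) (x y : A), ‖Lam L (w * X (a i) ^ k * (x ⊗ₜ[ℂ] y))‖ ≤ C * (‖x‖ * ‖y‖) := by
    intro w hw i k
    induction k with
    | zero => intro x y; simpa using hw x y
    | succ k ih =>
      intro x y
      have e : w * X (a i) ^ (k + 1) * (x ⊗ₜ[ℂ] y) =
          w * X (a i) ^ k * ((a i * x) ⊗ₜ[ℂ] y) - w * X (a i) ^ k * (x ⊗ₜ[ℂ] (a i * y)) := by
        rw [← mul_sub, ← X_mul, pow_succ]; ring
      rw [e, map_sub]
      refine (norm_sub_le _ _).trans ?_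
      have h1 := ih (a i * x) y
      have h2 := ih x (a i * y)
      have h3 : ‖a i * x‖ ≤ 1 / 2 * ‖x‖ := (norm_mul_le _ _).trans (by gcongr; exact ha i)
      have h4 : ‖a i * y‖ ≤ 1 / 2 * ‖y‖ := (norm_mul_le _ _).trans (by gcongr; exact ha i)
      have h5 : C * (‖a i * x‖ * ‖y‖) ≤ C * ((1 / 2 * ‖x‖) * ‖y‖) := by gcongr
      have h6 : C * (‖x‖ * ‖a i * y‖) ≤ C * (‖x‖ * (1 / 2 * ‖y‖)) := by gcongr
      linarith
  induction μ using Finsupp.induction generalizing z with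
  | zero => intro x y; simpa using hz x y
  | single_add i k μ hi hk ih =>
    intro x y
    have e : (Finsupp.single i k + μ).prod (fun i k => X (a i) ^ k) =
        X (a i) ^ k * μ.prod fun i k => X (a i) ^ k := by
      rw [Finsupp.prod_add_index' (fun _ => pow_zero _) (fun _ _ _ => pow_add _ _ _)]
      congr 1
      exact Finsupp.prod_single_index (pow_zero _)
    rw [e, ← mul_assoc]
    exact ih (z * X (a i) ^ k) (hpow z hz i k) x y

/-- the homomorphism from multi-indices -/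
noncomputable def XHom (a : ℕ → A) : Multiplicative (ℕ →₀ ℕ) →* A ⊗[ℂ] A where
  toFun μ := μ.toAdd.prod fun i k => X (a i) ^ k
  map_one' := by simp
  map_mul' μ ν := by
    rw [toAdd_mul, Finsupp.prod_add_index' (fun _ => pow_zero _) (fun _ _ _ => pow_add _ _ _)]

/-- the data for the universal target algebra -/
noncomputable def datC (a : ℕ → A) (et : ℕ → ℕ → ℕ) (hmono : ∀ i, Monotone (et i)) :
    NA2.Dat (A ⊗[ℂ] A) ((A × A) × Multiplicative (ℕ →₀ ℕ)) where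
  ι := ((Algebra.TensorProduct.includeLeft (R := ℂ) (S := ℂ) (A := A) (B := A) :
      A →ₐ[ℂ] A ⊗[ℂ] A).toMonoidHom.coprod
      (Algebra.TensorProduct.includeRight (R := ℂ) (A := A) (B := A) :
        A →ₐ[ℂ] A ⊗[ℂ] A).toMonoidHom).coprod (XHom a)
  N := fun g => ‖g.1.1‖ * ‖g.1.2‖ * Real.exp (-(S et g.2.toAdd))
  nonneg := fun g => by positivity
  mul := fun g h => by
    simp only [Prod.fst_mul, Prod.snd_mul, toAdd_mul]
    have h1 := norm_mul_le g.1.1 h.1.1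
    have h2 := norm_mul_le g.1.2 h.1.2
    have h3 : Real.exp (-(S et (g.2.toAdd + h.2.toAdd))) ≤
        Real.exp (-(S et g.2.toAdd)) * Real.exp (-(S et h.2.toAdd)) := by
      rw [← Real.exp_add]
      apply Real.exp_le_exp.mpr
      have := S_add et hmono g.2.toAdd h.2.toAdd
      linarith
    calc ‖g.1.1 * h.1.1‖ * ‖g.1.2 * h.1.2‖ * Real.exp (-(S et (g.2.toAdd + h.2.toAdd))) ≤
        (‖g.1.1‖ * ‖h.1.1‖) * (‖g.1.2‖ * ‖h.1.2‖) *
          (Real.exp (-(S et g.2.toAdd)) * Real.exp (-(S et h.2.toAdd))) := by gcongr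
      _ = _ := by ring
  span := by
    rw [eq_top_iff, ← TensorProduct.span_tmul_eq_top]
    apply Submodule.span_mono
    rintro _ ⟨x, y, rfl⟩
    exact ⟨((x, y), 1), by simp⟩

lemma datC_ι (a : ℕ → A) (et : ℕ → ℕ → ℕ) (hmono : ∀ i, Monotone (et i)) (x y : A)
    (μ : ℕ →₀ ℕ) :
    (datC a et hmono).ι ((x, y), Multiplicative.ofAdd μ) =
      (x ⊗ₜ[ℂ] y) * μ.prod fun i k => X (a i) ^ k := by
  simp [datC, XHom]

end hard

end Pool.Agent.H21.HP
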