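import Mathlib
import Pool.Agent.H21.HP.CritB

open Filter Topology TensorProduct

namespace Pool.Agent.H21.HP

variable {A : Type} [NormedCommRing A] [NormedAlgebra ℂ A]

/-- the homomorphism property implies the criterion, for separable algebras -/
theorem crit_hard [TopologicalSpace.SeparableSpace A]
    (hHP : ∀ (B : Type) [NormedCommRing B] [NormedAlgebra ℂ B] [CompleteSpace B]
      (φ ψ : A →ₐ[ℂ] B), Continuous φ → Continuous ψ →
      (∀ a, φ a - ψ a ∈ Ring.jacobson B) → φ = ψ)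
    (L : A →L[ℂ] A →L[ℂ] ℂ)
    (hQN : ∀ a : A, ∀ ε : ℝ, 0 < ε → ∃ C : ℝ, ∀ (k : ℕ) (x y : A),
        ‖(dfc a)^[k] (fun x y => L x y) x y‖ ≤ C * ε ^ k * (‖x‖ * ‖y‖)) :
    ∀ a x y : A, L (a * x) y = L x (a * y) := by
  let d : ℕ → A := TopologicalSpace.denseSeq A
  let s : ℕ → ℂ := fun i => ((2 * (1 + ‖d i‖) : ℝ) : ℂ)
  have hs : ∀ i, s i ≠ 0 := fun i => by
    have : (2 * (1 + ‖d i‖) : ℝ) ≠ 0 := by positivity
    show ((2 * (1 + ‖d i‖) : ℝ) : ℂ) ≠ 0
    exact Complex.ofReal_ne_zero.mpr this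
  let a : ℕ → A := fun i => (s i)⁻¹ • d i
  have ha : ∀ i, ‖a i‖ ≤ 1 / 2 := by
    intro i
    show ‖(s i)⁻¹ • d i‖ ≤ 1 / 2
    rw [norm_smul, norm_inv, Complex.norm_real, Real.norm_of_nonneg (by positivity),
      inv_mul_le_iff₀ (by positivity)]
    linarith [norm_nonneg (d i)]
  set C₀ : ℝ := ‖L‖ + 1 with hC₀
  have hC₀pos : 0 < C₀ := by positivity
  have hL0 : ∀ x y : A, ‖Lam L (1 * (x ⊗ₜ[ℂ] y))‖ ≤ C₀ * (‖x‖ * ‖y‖) := by
    intro x y
    rw [one_mul, Lam_tmul]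
    have h1 : ‖L x y‖ ≤ ‖L‖ * ‖x‖ * ‖y‖ := L.le_opNorm₂ x y
    have h2 : 0 ≤ ‖x‖ * ‖y‖ := by positivity
    nlinarith
  let P : ℕ → ℕ → ℕ → Prop := fun i m k => ∀ j, k ≤ j → ∀ x y : A,
    ‖Lam L (X (a i) ^ j * (x ⊗ₜ[ℂ] y))‖ ≤ C₀ * Real.exp (-((j : ℝ) * m)) * (‖x‖ * ‖y‖)
  have hP0 : ∀ i k, P i 0 k := by
    intro i k j _ x y
    have h1 := bound_prod L a ha 1 C₀ hC₀pos.le hL0 (Finsupp.single i j) x y
    have h2 : (Finsupp.single i j).prod (fun i k => X (a i) ^ k) = X (a i) ^ j :=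
      Finsupp.prod_single_index (pow_zero _)
    rw [h2, one_mul] at h1
    simpa using h1
  have hPm : ∀ i m j k, j ≤ k → P i m j → P i m k := fun i m j k hjk h l hl => h l (hjk.trans hl)
  have hPK : ∀ i m, ∃ K, P i m K := by
    intro i m
    obtain ⟨C, hC⟩ := hQN (a i) (Real.exp (-((m : ℝ) + 1))) (Real.exp_pos _)
    have hlim : Tendsto (fun k : ℕ => |C| * (Real.exp (-1)) ^ k) atTop (𝓝 (|C| * 0)) := by
      apply Tendsto.const_mul
      apply tendsto_pow_atTop_nhds_zero_of_lt_one (Real.exp_pos _).le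
      rw [Real.exp_lt_one_iff]
      norm_num
    rw [mul_zero] at hlim
    obtain ⟨K, hK⟩ := eventually_atTop.mp (hlim.eventually_le_const hC₀pos)
    refine ⟨K, fun j hj x y => ?_⟩
    rw [← dfc_Lam]
    refine (hC j x y).trans ?_
    apply mul_le_mul_of_nonneg_right _ (by positivity)
    have e1 : Real.exp (-((m : ℝ) + 1)) ^ j =
        (Real.exp (-1)) ^ j * Real.exp (-((j : ℝ) * m)) := by
      rw [← Real.exp_nat_mul, ← Real.exp_nat_mul, ← Real.exp_add]
      congr 1; ring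
    rw [e1, ← mul_assoc]
    apply mul_le_mul_of_nonneg_right _ (Real.exp_pos _).le
    calc C * Real.exp (-1) ^ j ≤ |C| * Real.exp (-1) ^ j := by
          apply mul_le_mul_of_nonneg_right (le_abs_self C) (by positivity)
      _ ≤ C₀ := hK j hj
  let et : ℕ → ℕ → ℕ := fun i => eta (P i)
  have hmono : ∀ i, Monotone (et i) := fun i j k hjk => eta_mono (P i) (hP0 i) (hPm i) hjk
  have hspec : ∀ i k, P i (et i k) k := fun i k => eta_spec (P i) (hP0 i) k
  let D := datC a et hmono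
  -- the functional is bounded on the generators
  have hbd : ∀ g, ‖Lam L (D.ι g)‖ ≤ C₀ * D.N g := by
    rintro ⟨⟨x, y⟩, μ⟩
    have e1 : D.ι ((x, y), μ) = (x ⊗ₜ[ℂ] y) * μ.toAdd.prod fun i k => X (a i) ^ k :=
      datC_ι a et hmono x y μ.toAdd
    have e2 : D.N ((x, y), μ) = ‖x‖ * ‖y‖ * Real.exp (-(S et μ.toAdd)) := rfl
    rw [e1, e2]
    generalize μ.toAdd = ν
    rw [mul_comm (x ⊗ₜ[ℂ] y)]
    by_cases hν : ν = 0
    · have h1 := hL0 x y
      rw [hν, Finsupp.prod_zero_index, S_zero, neg_zero, Real.exp_zero, mul_one]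
      exact h1
    · obtain ⟨i, hi⟩ := S_le_max et ν hν
      have h1 := bound_prod L a ha (X (a i) ^ (ν i))
        (C₀ * Real.exp (-((ν i : ℝ) * et i (ν i)))) (by positivity)
        (fun x y => hspec i (ν i) (ν i) le_rfl x y) (ν.erase i) x y
      have h2 : ν.prod (fun i k => X (a i) ^ k) =
          X (a i) ^ (ν i) * (ν.erase i).prod fun i k => X (a i) ^ k := by
        conv_lhs => rw [← Finsupp.single_add_erase i ν]
        rw [Finsupp.prod_add_index' (fun _ => pow_zero _) (fun _ _ _ => pow_add _ _ _)]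
        congr 1
        exact Finsupp.prod_single_index (pow_zero _)
      rw [h2]
      refine h1.trans ?_
      have h3 : Real.exp (-((ν i : ℝ) * et i (ν i))) ≤ Real.exp (-(S et ν)) := by
        apply Real.exp_le_exp.mpr
        linarith
      calc C₀ * Real.exp (-((ν i : ℝ) * et i (ν i))) * (‖x‖ * ‖y‖) ≤
          C₀ * Real.exp (-(S et ν)) * (‖x‖ * ‖y‖) := by gcongr
        _ = _ := by ring
  -- the two homomorphisms
  let φ : A →ₐ[ℂ] D.Comp := D.inc.comp (Algebra.TensorProduct.includeLeft (R := ℂ) (S := ℂ))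
  let ψ : A →ₐ[ℂ] D.Comp := D.inc.comp (Algebra.TensorProduct.includeRight (R := ℂ))
  have hφ1 : ∀ x, φ x = D.inc (x ⊗ₜ[ℂ] (1 : A)) := fun x => rfl
  have hψ1 : ∀ x, ψ x = D.inc ((1 : A) ⊗ₜ[ℂ] x) := fun x => rfl
  have hdiff : ∀ x, φ x - ψ x = D.inc (X x) := by
    intro x
    rw [hφ1, hψ1, ← map_sub]
    rfl
  have hgen : ∀ (x y : A) (μ : ℕ →₀ ℕ),
      ‖D.inc ((x ⊗ₜ[ℂ] y) * μ.prod fun i k => X (a i) ^ k)‖ ≤
        ‖x‖ * ‖y‖ * Real.exp (-(S et μ)) := by
    intro x y μ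
    rw [NA2.Dat.norm_inc, ← datC_ι a et hmono x y μ]
    exact D.nrm_gen_le _
  have hφn : ∀ x, ‖φ x‖ ≤ ‖(1 : A)‖ * ‖x‖ := by
    intro x
    have h1 := hgen x 1 0
    rw [Finsupp.prod_zero_index, mul_one, S_zero, neg_zero, Real.exp_zero, mul_one] at h1
    rw [hφ1, mul_comm]
    exact h1
  have hψn : ∀ x, ‖ψ x‖ ≤ ‖(1 : A)‖ * ‖x‖ := by
    intro x
    have h1 := hgen 1 x 0
    rw [Finsupp.prod_zero_index, mul_one, S_zero, neg_zero, Real.exp_zero, mul_one] at h1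
    rw [hψ1]
    exact h1
  have hφc : Continuous φ := AddMonoidHomClass.continuous_of_bound φ _ hφn
  have hψc : Continuous ψ := AddMonoidHomClass.continuous_of_bound ψ _ hψn
  -- the generators are sent into the radical
  have hXi : ∀ i, D.inc (X (a i)) ∈ Ring.jacobson D.Comp := by
    intro i
    apply mem_jac_of_qn
    intro ε hε
    set θ : ℝ := (1 / 2 : ℝ) ^ (i + 1) with hθ
    have hθ0 : 0 < θ := by positivity
    obtain ⟨m, hm⟩ := exists_nat_ge (-(Real.log ε) / θ)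
    obtain ⟨K, hK⟩ := hPK i m
    refine ⟨‖(1 : A)‖ * ‖(1 : A)‖, by positivity, max K m, fun k hk => ?_⟩
    have het : m ≤ et i k := eta_ge (P i) (hPm i) m K hK k ((le_max_left _ _).trans hk)
      ((le_max_right _ _).trans hk)
    have h1 := hgen 1 1 (Finsupp.single i k)
    have h2 : (Finsupp.single i k).prod (fun i k => X (a i) ^ k) = X (a i) ^ k :=
      Finsupp.prod_single_index (pow_zero _)
    have h3 : ((1 : A) ⊗ₜ[ℂ] (1 : A)) = (1 : A ⊗[ℂ] A) := rfl
    rw [h2, h3, one_mul, map_pow, S_single, ← hθ] at h1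
    refine h1.trans ?_
    apply mul_le_mul_of_nonneg_left _ (by positivity)
    have h4 : Real.exp (-(θ * (k * et i k))) ≤ Real.exp (k * Real.log ε) := by
      apply Real.exp_le_exp.mpr
      rw [div_le_iff₀ hθ0] at hm
      have h5 : (m : ℝ) ≤ et i k := by exact_mod_cast het
      have h6 : (0 : ℝ) ≤ k := Nat.cast_nonneg k
      have h7 : (m : ℝ) * θ ≤ et i k * θ := mul_le_mul_of_nonneg_right h5 hθ0.le
      have h8 : -(Real.log ε) ≤ et i k * θ := hm.trans h7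
      nlinarith [mul_le_mul_of_nonneg_left h8 h6]
    refine h4.trans (le_of_eq ?_)
    rw [Real.exp_nat_mul, Real.exp_log hε]
  have hXd : ∀ i, D.inc (X (d i)) ∈ Ring.jacobson D.Comp := by
    intro i
    have h1 : d i = s i • a i := by
      show d i = s i • ((s i)⁻¹ • d i)
      rw [smul_smul, mul_inv_cancel₀ (hs i), one_smul]
    rw [h1, X_smul, map_smul]
    exact smul_mem_jac (hXi i) _
  have hall : ∀ x, φ x - ψ x ∈ Ring.jacobson D.Comp := by
    have hcl : IsClosed {x : A | φ x - ψ x ∈ Ring.jacobson D.Comp} :=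
      jac_closed.preimage (hφc.sub hψc)
    intro x
    refine (TopologicalSpace.denseRange_denseSeq A).induction_on x hcl (fun i => ?_)
    show φ (d i) - ψ (d i) ∈ Ring.jacobson D.Comp
    rw [hdiff]
    exact hXd i
  have hEq := hHP D.Comp φ ψ hφc hψc hall
  intro b x y
  have h1 : D.inc (X b) = 0 := by
    rw [← hdiff, hEq, sub_self]
  have h2 : D.nrm (X b * (x ⊗ₜ[ℂ] y)) = 0 := by
    rw [← NA2.Dat.norm_inc, map_mul, h1, zero_mul, norm_zero]
  have h3 := D.scale hC₀pos.le hbd (X b * (x ⊗ₜ[ℂ] y))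
  rw [h2, mul_zero, norm_le_zero_iff, X_mul, map_sub, Lam_tmul, Lam_tmul, sub_eq_zero] at h3
  exact h3

end Pool.Agent.H21.HP
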