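import Mathlib
import Pool.Agent.H21.HP.CritC

open Filter Topology TensorProduct

namespace Pool.Agent.H21.HP

/-- iterated defects along a list of elements -/
def dfcs {A : Type*} (T : A → (A → A → ℂ) → (A → A → ℂ)) (s : List A) (F : A → A → ℂ) :
    A → A → ℂ := s.foldr T F

section easy

variable {A B : Type*} [NormedCommRing A] [NormedAlgebra ℂ A] [NormedCommRing B]
  [NormedAlgebra ℂ B]

lemma dfcs_phi (φ ψ : A →ₙₐ[ℂ] B) (l : B →L[ℂ] ℂ) (s : List A) : ∀ x y : A,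
    dfcs dfc s (fun x y => l (φ x * ψ y)) x y =
      l (φ x * ψ y * ((s : Multiset A).map fun a => φ a - ψ a).prod) := by
  induction s with
  | nil => intro x y; simp [dfcs]
  | cons a s ih =>
    intro x y
    show dfcs dfc s (fun x y => l (φ x * ψ y)) (a * x) y -
      dfcs dfc s (fun x y => l (φ x * ψ y)) x (a * y) = _
    rw [ih, ih, ← map_sub, ← Multiset.cons_coe, Multiset.map_cons, Multiset.prod_cons]
    congr 1
    rw [map_mul φ, map_mul ψ]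
    ring

/-- the general criterion implies the homomorphism property -/
theorem critG_easy [CompleteSpace B]
    (hcrit : ∀ L : A →L[ℂ] A →L[ℂ] ℂ,
      (∃ (C : ℝ) (ρ : Multiset A → ℝ), (∀ μ, 0 ≤ ρ μ) ∧ (∀ μ ν, ρ (μ + ν) ≤ ρ μ * ρ ν) ∧
        (∀ a : A, ∀ ε : ℝ, 0 < ε → ∃ C' : ℝ, ∀ k : ℕ, ρ (k • {a}) ≤ C' * ε ^ k) ∧
        ∀ (s : List A) (x y : A), ‖dfcs dfc s (fun x y => L x y) x y‖ ≤
          C * ρ (s : Multiset A) * (‖x‖ * ‖y‖)) →
      ∀ a x y : A, L (a * x) y = L x (a * y))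
    (φ ψ : A →ₙₐ[ℂ] B) (hφ : Continuous φ) (hψ : Continuous ψ)
    (h : ∀ a, φ a - ψ a ∈ Ring.jacobson B) : φ = ψ := by
  have h1 := map_one_eq φ ψ h
  apply NonUnitalAlgHom.ext
  intro a
  rw [← sub_eq_zero]
  apply SeparatingDual.eq_zero_of_forall_dual_eq_zero (R := ℂ)
  intro l
  let φL : A →L[ℂ] B := ⟨(φ : A →ₗ[ℂ] B), hφ⟩
  let ψL : A →L[ℂ] B := ⟨(ψ : A →ₗ[ℂ] B), hψ⟩
  let m : B →L[ℂ] B →L[ℂ] B := ContinuousLinearMap.mul ℂ B
  let L : A →L[ℂ] (A →L[ℂ] ℂ) :=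
    ((ContinuousLinearMap.compL ℂ A B ℂ l).comp
      ((ContinuousLinearMap.compL ℂ A B B).flip ψL)).comp (m.comp φL)
  have hL : ∀ x y, L x y = l (φ x * ψ y) := fun x y => rfl
  have hbal := hcrit L ?_ a 1 1
  · rw [hL, hL, mul_one] at hbal
    have e1 : φ a * ψ 1 = φ a := by rw [← h1, ← map_mul, mul_one]
    have e2 : φ 1 * ψ a = ψ a := by rw [h1, ← map_mul, one_mul]
    rw [e1, e2] at hbal
    rw [map_sub, hbal, sub_self]
  · refine ⟨‖l‖ * (‖φL‖ * ‖ψL‖), fun μ => ‖(μ.map fun a => φ a - ψ a).prod‖,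
      fun μ => norm_nonneg _, fun μ ν => ?_, fun b ε hε => ?_, fun s x y => ?_⟩
    · show ‖((μ + ν).map fun a => φ a - ψ a).prod‖ ≤ _
      rw [Multiset.map_add, Multiset.prod_add]
      exact norm_mul_le _ _
    · obtain ⟨C, hC⟩ := qn_of_mem_jac _ (h b) ε hε
      refine ⟨C, fun k => ?_⟩
      show ‖((k • {b} : Multiset A).map fun a => φ a - ψ a).prod‖ ≤ _
      rw [Multiset.map_nsmul, Multiset.prod_nsmul, Multiset.map_singleton,
        Multiset.prod_singleton]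
      exact hC k
    · have e : (fun x y => L x y) = fun x y => l (φ x * ψ y) := rfl
      rw [e, dfcs_phi]
      have hb1 : ‖φ x‖ ≤ ‖φL‖ * ‖x‖ := φL.le_opNorm x
      have hb2 : ‖ψ y‖ ≤ ‖ψL‖ * ‖y‖ := ψL.le_opNorm y
      show ‖l (φ x * ψ y * ((s : Multiset A).map fun a => φ a - ψ a).prod)‖ ≤
        ‖l‖ * (‖φL‖ * ‖ψL‖) * ‖((s : Multiset A).map fun a => φ a - ψ a).prod‖ * (‖x‖ * ‖y‖)
      generalize ((s : Multiset A).map fun a => φ a - ψ a).prod = r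
      calc ‖l (φ x * ψ y * r)‖ ≤ ‖l‖ * ‖φ x * ψ y * r‖ := l.le_opNorm _
        _ ≤ ‖l‖ * ((‖φ x‖ * ‖ψ y‖) * ‖r‖) := by
            gcongr
            exact (norm_mul_le _ _).trans (by gcongr; exact norm_mul_le _ _)
        _ ≤ ‖l‖ * (((‖φL‖ * ‖x‖) * (‖ψL‖ * ‖y‖)) * ‖r‖) := by gcongr
        _ = ‖l‖ * (‖φL‖ * ‖ψL‖) * ‖r‖ * (‖x‖ * ‖y‖) := by ring

end easy

section hard

variable {A : Type} [NormedCommRing A] [NormedAlgebra ℂ A]

lemma dfcs_Lam (L : A →L[ℂ] A →L[ℂ] ℂ) (s : List A) : ∀ x y : A,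
    dfcs dfc s (fun x y => L x y) x y =
      Lam L (((s : Multiset A).map X).prod * (x ⊗ₜ[ℂ] y)) := by
  induction s with
  | nil => intro x y; simp [Lam_tmul, dfcs]
  | cons a s ih =>
    intro x y
    show dfcs dfc s (fun x y => L x y) (a * x) y -
      dfcs dfc s (fun x y => L x y) x (a * y) = _
    rw [ih, ih, ← map_sub, ← mul_sub, ← X_mul, ← Multiset.cons_coe, Multiset.map_cons,
      Multiset.prod_cons]
    congr 1
    ring

/-- the homomorphism from multisets -/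
noncomputable def XHomG : Multiplicative (Multiset A) →* A ⊗[ℂ] A where
  toFun μ := (μ.toAdd.map X).prod
  map_one' := by simp
  map_mul' μ ν := by
    rw [toAdd_mul, Multiset.map_add, Multiset.prod_add]

/-- the data for the universal target algebra -/
noncomputable def datG (ρ : Multiset A → ℝ) (h0 : ∀ μ, 0 ≤ ρ μ)
    (hmul : ∀ μ ν, ρ (μ + ν) ≤ ρ μ * ρ ν) (_h1 : 1 ≤ ρ 0) :
    NA2.Dat (A ⊗[ℂ] A) ((A × A) × Multiplicative (Multiset A)) where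
  ι := ((Algebra.TensorProduct.includeLeft (R := ℂ) (S := ℂ) (A := A) (B := A) :
      A →ₐ[ℂ] A ⊗[ℂ] A).toMonoidHom.coprod
      (Algebra.TensorProduct.includeRight (R := ℂ) (A := A) (B := A) :
        A →ₐ[ℂ] A ⊗[ℂ] A).toMonoidHom).coprod XHomG
  N := fun g => ‖g.1.1‖ * ‖g.1.2‖ * ρ g.2.toAdd
  nonneg := fun g => mul_nonneg (by positivity) (h0 _)
  mul := fun g h => by
    simp only [Prod.fst_mul, Prod.snd_mul, toAdd_mul]
    have e1 := norm_mul_le g.1.1 h.1.1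
    have e2 := norm_mul_le g.1.2 h.1.2
    have e3 := hmul g.2.toAdd h.2.toAdd
    have e4 := h0 g.2.toAdd
    have e5 := h0 h.2.toAdd
    have e6 := h0 (g.2.toAdd + h.2.toAdd)
    calc ‖g.1.1 * h.1.1‖ * ‖g.1.2 * h.1.2‖ * ρ (g.2.toAdd + h.2.toAdd) ≤
        (‖g.1.1‖ * ‖h.1.1‖) * (‖g.1.2‖ * ‖h.1.2‖) * (ρ g.2.toAdd * ρ h.2.toAdd) := by
          gcongr
      _ = _ := by ring
  span := by
    rw [eq_top_iff, ← TensorProduct.span_tmul_eq_top]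
    apply Submodule.span_mono
    rintro _ ⟨x, y, rfl⟩
    exact ⟨((x, y), 1), by simp⟩

lemma datG_ι (ρ : Multiset A → ℝ) (h0 : ∀ μ, 0 ≤ ρ μ)
    (hmul : ∀ μ ν, ρ (μ + ν) ≤ ρ μ * ρ ν) (h1 : 1 ≤ ρ 0) (x y : A) (μ : Multiset A) :
    (datG ρ h0 hmul h1).ι ((x, y), Multiplicative.ofAdd μ) = (x ⊗ₜ[ℂ] y) * (μ.map X).prod := by
  simp [datG, XHomG]

/-- the homomorphism property implies the general criterion -/
theorem critG_hard
    (hHP : ∀ (B : Type) [NormedCommRing B] [NormedAlgebra ℂ B] [CompleteSpace B]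
      (φ ψ : A →ₐ[ℂ] B), Continuous φ → Continuous ψ →
      (∀ a, φ a - ψ a ∈ Ring.jacobson B) → φ = ψ)
    (L : A →L[ℂ] A →L[ℂ] ℂ)
    (hQN : ∃ (C : ℝ) (ρ : Multiset A → ℝ), (∀ μ, 0 ≤ ρ μ) ∧
        (∀ μ ν, ρ (μ + ν) ≤ ρ μ * ρ ν) ∧
        (∀ a : A, ∀ ε : ℝ, 0 < ε → ∃ C' : ℝ, ∀ k : ℕ, ρ (k • {a}) ≤ C' * ε ^ k) ∧
        ∀ (s : List A) (x y : A), ‖dfcs dfc s (fun x y => L x y) x y‖ ≤
          C * ρ (s : Multiset A) * (‖x‖ * ‖y‖)) :
    ∀ a x y : A, L (a * x) y = L x (a * y) := by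
  obtain ⟨C, ρ, h0, hmul, hqn, hb⟩ := hQN
  -- a multiplicative weight vanishing at the empty multiset vanishes everywhere
  by_cases hρ : ρ 0 = 0
  · intro a x y
    have h1 := hb [a] x y
    have h2 : ρ (([a] : List A) : Multiset A) = 0 := by
      apply le_antisymm _ (h0 _)
      have h3 := hmul 0 (([a] : List A) : Multiset A)
      rwa [zero_add, hρ, zero_mul] at h3
    rw [h2, mul_zero, zero_mul, norm_le_zero_iff] at h1
    have h4 : L (a * x) y - L x (a * y) = 0 := h1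
    exact sub_eq_zero.mp h4
  have hρ1 : 1 ≤ ρ 0 := by
    have h3 := hmul 0 0
    rw [zero_add] at h3
    have h4 : 0 < ρ 0 := lt_of_le_of_ne (h0 0) (Ne.symm hρ)
    nlinarith
  let D := datG ρ h0 hmul hρ1
  have hC0 : (0 : ℝ) ≤ |C| := abs_nonneg C
  have hbd : ∀ g, ‖Lam L (D.ι g)‖ ≤ |C| * D.N g := by
    rintro ⟨⟨x, y⟩, μ⟩
    have e1 : D.ι ((x, y), μ) = (x ⊗ₜ[ℂ] y) * (μ.toAdd.map X).prod :=
      datG_ι ρ h0 hmul hρ1 x y μ.toAdd
    have e2 : D.N ((x, y), μ) = ‖x‖ * ‖y‖ * ρ μ.toAdd := rfl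
    rw [e1, e2]
    generalize μ.toAdd = ν
    rw [mul_comm (x ⊗ₜ[ℂ] y)]
    obtain ⟨s, rfl⟩ := Quot.exists_rep ν
    have h1 := hb s x y
    rw [dfcs_Lam] at h1
    refine h1.trans ?_
    have h2 : C * ρ (s : Multiset A) ≤ |C| * ρ (s : Multiset A) :=
      mul_le_mul_of_nonneg_right (le_abs_self C) (h0 _)
    calc C * ρ (s : Multiset A) * (‖x‖ * ‖y‖) ≤ |C| * ρ (s : Multiset A) * (‖x‖ * ‖y‖) := by
          gcongr
      _ = |C| * (‖x‖ * ‖y‖ * ρ (s : Multiset A)) := by ring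
  let φ : A →ₐ[ℂ] D.Comp := D.inc.comp (Algebra.TensorProduct.includeLeft (R := ℂ) (S := ℂ))
  let ψ : A →ₐ[ℂ] D.Comp := D.inc.comp (Algebra.TensorProduct.includeRight (R := ℂ))
  have hφ1 : ∀ x, φ x = D.inc (x ⊗ₜ[ℂ] (1 : A)) := fun x => rfl
  have hψ1 : ∀ x, ψ x = D.inc ((1 : A) ⊗ₜ[ℂ] x) := fun x => rfl
  have hdiff : ∀ x, φ x - ψ x = D.inc (X x) := by
    intro x
    rw [hφ1, hψ1, ← map_sub]
    rfl
  have hgen : ∀ (x y : A) (μ : Multiset A),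
      ‖D.inc ((x ⊗ₜ[ℂ] y) * (μ.map X).prod)‖ ≤ ‖x‖ * ‖y‖ * ρ μ := by
    intro x y μ
    rw [NA2.Dat.norm_inc, ← datG_ι ρ h0 hmul hρ1 x y μ]
    exact D.nrm_gen_le _
  have hφn : ∀ x, ‖φ x‖ ≤ (‖(1 : A)‖ * ρ 0) * ‖x‖ := by
    intro x
    have h1 := hgen x 1 0
    rw [Multiset.map_zero, Multiset.prod_zero, mul_one] at h1
    rw [hφ1]
    refine h1.trans (le_of_eq (by ring))
  have hψn : ∀ x, ‖ψ x‖ ≤ (‖(1 : A)‖ * ρ 0) * ‖x‖ := by
    intro x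
    have h1 := hgen 1 x 0
    rw [Multiset.map_zero, Multiset.prod_zero, mul_one] at h1
    rw [hψ1]
    refine h1.trans (le_of_eq (by ring))
  have hφc : Continuous φ := AddMonoidHomClass.continuous_of_bound φ _ hφn
  have hψc : Continuous ψ := AddMonoidHomClass.continuous_of_bound ψ _ hψn
  have hX : ∀ a, D.inc (X a) ∈ Ring.jacobson D.Comp := by
    intro a
    apply mem_jac_of_qn
    intro ε hε
    obtain ⟨C', hC'⟩ := hqn a ε hε
    refine ⟨‖(1 : A)‖ * ‖(1 : A)‖ * |C'|, by positivity, 0, fun k _ => ?_⟩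
    have h1 := hgen 1 1 (k • {a})
    have h3 : ((1 : A) ⊗ₜ[ℂ] (1 : A)) = (1 : A ⊗[ℂ] A) := rfl
    rw [Multiset.map_nsmul, Multiset.prod_nsmul, Multiset.map_singleton,
      Multiset.prod_singleton, h3, one_mul, map_pow] at h1
    refine h1.trans ?_
    have h4 : ρ (k • {a}) ≤ |C'| * ε ^ k :=
      (hC' k).trans (mul_le_mul_of_nonneg_right (le_abs_self C') (by positivity))
    calc ‖(1 : A)‖ * ‖(1 : A)‖ * ρ (k • {a}) ≤ ‖(1 : A)‖ * ‖(1 : A)‖ * (|C'| * ε ^ k) := by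
          gcongr
      _ = _ := by ring
  have hEq := hHP D.Comp φ ψ hφc hψc (fun x => by rw [hdiff]; exact hX x)
  intro b x y
  have h1 : D.inc (X b) = 0 := by
    rw [← hdiff, hEq, sub_self]
  have h2 : D.nrm (X b * (x ⊗ₜ[ℂ] y)) = 0 := by
    rw [← NA2.Dat.norm_inc, map_mul, h1, zero_mul, norm_zero]
  have h3 := D.scale hC0 hbd (X b * (x ⊗ₜ[ℂ] y))
  rw [h2, mul_zero, norm_le_zero_iff, X_mul, map_sub, Lam_tmul, Lam_tmul, sub_eq_zero] at h3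
  exact h3

end hard

end Pool.Agent.H21.HP
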