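import Mathlib
import Pool.Agent.H21.HP.Group

open Filter Topology

namespace Pool.Agent.H21.HP

section unitz

variable (B : Type*) [NonUnitalNormedCommRing B] [NormedSpace ℂ B] [IsScalarTower ℂ B B]
  [SMulCommClass ℂ B B]

/-- the unitization with the norm `|c| + ‖b‖` -/
abbrev Un : Type _ := WithLp 1 (Unitization ℂ B)

noncomputable instance instUn : NormedCommRing (Un B) :=
  { (WithLp.instUnitizationNormedRing : NormedRing (WithLp 1 (Unitization ℂ B))) with
    mul_comm := fun x y => by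
      apply (WithLp.ofLp_injective 1)
      rw [WithLp.unitization_mul, WithLp.unitization_mul, mul_comm] }

noncomputable instance instUnAlg : NormedAlgebra ℂ (Un B) := WithLp.instUnitizationNormedAlgebra

variable {B}

/-- the inclusion into the unitization -/
noncomputable def inc : B →ₙₐ[ℂ] Un B where
  toFun b := WithLp.toLp 1 (b : Unitization ℂ B)
  map_smul' c b := by
    apply (WithLp.ofLp_injective 1)
    simp
  map_zero' := by
    apply (WithLp.ofLp_injective 1)
    simp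
  map_add' a b := by
    apply (WithLp.ofLp_injective 1)
    simp
  map_mul' a b := by
    apply (WithLp.ofLp_injective 1)
    simp

lemma inc_apply (b : B) : inc b = WithLp.toLp 1 (b : Unitization ℂ B) := rfl

lemma norm_inc (b : B) : ‖(inc b : Un B)‖ = ‖b‖ := WithLp.unitization_norm_inr b

lemma inc_injective : Function.Injective (inc : B → Un B) := by
  intro a b h
  have h1 : (inc a : Un B) - inc b = 0 := sub_eq_zero.mpr h
  rw [← map_sub] at h1
  have h2 : ‖(inc (a - b) : Un B)‖ = 0 := by rw [h1, norm_zero]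
  rw [norm_inc, norm_eq_zero, sub_eq_zero] at h2
  exact h2

lemma continuous_inc : Continuous (inc : B → Un B) :=
  AddMonoidHomClass.continuous_of_bound (inc : B →ₙₐ[ℂ] Un B) 1 (fun b => by
    rw [norm_inc, one_mul])

lemma un_ind (x : Un B) : ∃ (c : ℂ) (b : B), x = c • (1 : Un B) + inc b := by
  refine ⟨(WithLp.ofLp x).fst, (WithLp.ofLp x).snd, ?_⟩
  apply (WithLp.ofLp_injective 1)
  have h1 : WithLp.ofLp ((WithLp.ofLp x).fst • (1 : Un B) + inc (WithLp.ofLp x).snd) =
      (WithLp.ofLp x).fst • (1 : Unitization ℂ B) + ((WithLp.ofLp x).snd : Unitization ℂ B) := rfl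
  rw [h1]
  apply Unitization.ext
  · simp
  · simp

/-- quasi-regular elements become units in the unitization -/
lemma isUnit_one_add_inc {b : B} (h : IsQuasiregular b) : IsUnit (1 + (inc b : Un B)) := by
  have h1 : IsUnit (1 + (b : Unitization ℂ B)) := (isQuasiregular_iff_isUnit' ℂ).mp h
  have h2 := h1.map (WithLp.unitizationAlgEquiv (𝕜 := ℂ) (A := B) ℂ).symm
  have h3 : (WithLp.unitizationAlgEquiv (𝕜 := ℂ) (A := B) ℂ).symm (1 + (b : Unitization ℂ B)) =
      1 + (inc b : Un B) := rfl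
  rwa [h3] at h2

/-- the elements of the radical of a non unital algebra lie in the radical of the unitization -/
lemma inc_mem_jacobson {b : B} (h : ∀ c : B, IsQuasiregular (c * b)) :
    (inc b : Un B) ∈ Ring.jacobson (Un B) := by
  rw [← Ideal.jacobson_bot, Ideal.mem_jacobson_bot]
  intro y
  obtain ⟨c, d, rfl⟩ := un_ind y
  obtain ⟨z, hz⟩ : ∃ z : B, z = c • b + b * d := ⟨_, rfl⟩
  have h1 : (inc b : Un B) * (c • (1 : Un B) + inc d) = inc z := by
    rw [hz, mul_add, mul_smul_comm, mul_one, map_add, map_smul, map_mul]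
  rw [h1, add_comm]
  have h2 : (-(c • z + z * d)) * b = -(z * z) := by
    have h5 : z * (c • b + b * d) = (c • z + z * d) * b := by
      rw [mul_add, mul_smul_comm, add_mul, smul_mul_assoc, mul_comm b d, mul_assoc]
    rw [← hz] at h5
    rw [h5, neg_mul]
  have h3 := isUnit_one_add_inc (h (-(c • z + z * d)))
  rw [h2] at h3
  have h4 : (1 : Un B) + inc (-(z * z)) = (1 - inc z) * (1 + inc z) := by
    rw [map_neg, map_mul]; ring
  rw [h4] at h3
  exact isUnit_of_mul_isUnit_right h3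

/-- unital source, arbitrary target -/
theorem unital_source {A : Type*} [NormedCommRing A] [NormedAlgebra ℂ A] [CompleteSpace B]
    (hWA : ∀ D : A →L[ℂ] (A →L[ℂ] ℂ),
      (∀ a b x : A, D (a * b) x = D b (x * a) + D a (b * x)) → ∀ a x, D a x = 0)
    (G : Subgroup Aˣ)
    (hG : Dense (Submodule.span ℂ ((fun g : Aˣ => (g : A)) '' (G : Set Aˣ)) : Set A))
    (k : ℕ) (hk : ∀ g ∈ G, ∃ C : ℝ, ∀ n : ℕ, ‖(g : A) ^ n‖ ≤ C * ((n : ℝ) + 1) ^ k)
    (φ ψ : A →ₙₐ[ℂ] B) (hφ : Continuous φ) (hψ : Continuous ψ)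
    (h : ∀ a, ∀ c : B, IsQuasiregular (c * (φ a - ψ a))) : φ = ψ := by
  have key := unital_case (B := Un B) hWA G hG k hk ((inc : B →ₙₐ[ℂ] Un B).comp φ)
    ((inc : B →ₙₐ[ℂ] Un B).comp ψ) (continuous_inc.comp hφ) (continuous_inc.comp hψ) (fun a => by
      have h1 := inc_mem_jacobson (h a)
      rw [map_sub] at h1
      exact h1)
  apply NonUnitalAlgHom.ext
  intro a
  apply inc_injective
  exact congrArg (fun F : A →ₙₐ[ℂ] Un B => F a) key

section nonunital

variable {A : Type*} [NonUnitalNormedCommRing A] [NormedSpace ℂ A] [IsScalarTower ℂ A A]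
  [SMulCommClass ℂ A A]

/-- the inclusion into the unitization as a continuous linear map -/
noncomputable def incL : A →L[ℂ] Un A := ⟨(inc : A →ₙₐ[ℂ] Un A), continuous_inc⟩

/-- weak amenability passes to the unitization -/
lemma wa_un
    (hWA : ∀ D : A →L[ℂ] (A →L[ℂ] ℂ),
      (∀ a b x : A, D (a * b) x = D b (x * a) + D a (b * x)) → ∀ a x, D a x = 0)
    (D : Un A →L[ℂ] (Un A →L[ℂ] ℂ))
    (hD : ∀ a b x : Un A, D (a * b) x = D b (x * a) + D a (b * x)) : ∀ a x, D a x = 0 := by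
  have h1 : ∀ x, D 1 x = 0 := by
    intro x
    have h := hD 1 1 x
    rw [one_mul, mul_one, one_mul, left_eq_add] at h
    exact h
  let D₀ : A →L[ℂ] (A →L[ℂ] ℂ) :=
    ((ContinuousLinearMap.compL ℂ A (Un A) ℂ).flip incL).comp (D.comp incL)
  have hD₀ : ∀ a x : A, D₀ a x = D (inc a) (inc x) := fun a x => rfl
  have h2 : ∀ a x : A, D (inc a) (inc x) = 0 := by
    intro a x
    rw [← hD₀]
    apply hWA
    intro a b x
    rw [hD₀, hD₀, hD₀, map_mul (inc : A →ₙₐ[ℂ] Un A) a b, hD,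
      map_mul (inc : A →ₙₐ[ℂ] Un A) x a, map_mul (inc : A →ₙₐ[ℂ] Un A) b x]
  let lam : A →L[ℂ] ℂ := ((ContinuousLinearMap.apply ℂ ℂ (1 : Un A))).comp (D.comp incL)
  have hlam : ∀ a : A, lam a = D (inc a) 1 := fun a => rfl
  have hlam2 : ∀ a b : A, lam (a * b) = 0 := by
    intro a b
    rw [hlam, map_mul, hD, one_mul, mul_one, h2, h2, add_zero]
  let E : A →L[ℂ] (A →L[ℂ] ℂ) := ContinuousLinearMap.smulRight lam lam
  have hE : ∀ a x : A, E a x = lam a * lam x := fun a x => rfl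
  have h3 : ∀ a : A, lam a = 0 := by
    intro a
    have h4 : E a a = 0 := by
      apply hWA
      intro a b x
      rw [hE, hE, hE, hlam2, hlam2, hlam2, zero_mul, mul_zero, mul_zero, add_zero]
    rw [hE] at h4
    exact mul_self_eq_zero.mp h4
  intro a x
  obtain ⟨c, b, rfl⟩ := un_ind a
  obtain ⟨d, y, rfl⟩ := un_ind x
  have h5 : D (c • (1 : Un A) + inc b) (d • (1 : Un A) + inc y) =
      c * D 1 (d • (1 : Un A) + inc y) + (d * D (inc b) 1 + D (inc b) (inc y)) := by
    have e1 : D (c • (1 : Un A) + inc b) = c • D 1 + D (inc b) := by rw [map_add, map_smul]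
    rw [e1]
    show c * D 1 (d • (1 : Un A) + inc y) + D (inc b) (d • (1 : Un A) + inc y) = _
    rw [map_add (D (inc b)), map_smul (D (inc b))]
    rfl
  rw [h5, h1, h2, ← hlam, h3]
  ring

/-- non unital source, arbitrary target -/
theorem nonunital_source [CompleteSpace B]
    (hWA : ∀ D : A →L[ℂ] (A →L[ℂ] ℂ),
      (∀ a b x : A, D (a * b) x = D b (x * a) + D a (b * x)) → ∀ a x, D a x = 0)
    (G : Subgroup (Un A)ˣ)
    (hG : Dense (Submodule.span ℂ ((fun g : (Un A)ˣ => (g : Un A)) '' (G : Set (Un A)ˣ)) :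
      Set (Un A)))
    (k : ℕ) (hk : ∀ g ∈ G, ∃ C : ℝ, ∀ n : ℕ, ‖(g : Un A) ^ n‖ ≤ C * ((n : ℝ) + 1) ^ k)
    (φ ψ : A →ₙₐ[ℂ] B) (hφ : Continuous φ) (hψ : Continuous ψ)
    (h : ∀ a, ∀ c : B, IsQuasiregular (c * (φ a - ψ a))) : φ = ψ := by
  -- the unital extension of a homomorphism
  let ext : (A →ₙₐ[ℂ] B) → (Un A →ₐ[ℂ] Un B) := fun φ =>
    (Unitization.lift ((inc : B →ₙₐ[ℂ] Un B).comp φ)).comp
      (WithLp.unitizationAlgEquiv (𝕜 := ℂ) (A := A) ℂ : Un A →ₐ[ℂ] Unitization ℂ A)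
  have hext : ∀ (φ : A →ₙₐ[ℂ] B) (c : ℂ) (a : A),
      ext φ (c • (1 : Un A) + inc a) = c • (1 : Un B) + inc (φ a) := by
    intro φ c a
    rw [map_add, map_smul, map_one]
    congr 1
    show algebraMap ℂ (Un B) 0 + inc (φ a) = _
    rw [map_zero, zero_add]
  have hcont : ∀ (φ : A →ₙₐ[ℂ] B), Continuous φ → Continuous (ext φ) := by
    intro φ hφ
    let φL : A →L[ℂ] B := ⟨(φ : A →ₗ[ℂ] B), hφ⟩
    apply AddMonoidHomClass.continuous_of_bound (ext φ) (‖(1 : Un B)‖ + ‖φL‖)
    intro x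
    have hx : x = (WithLp.ofLp x).fst • (1 : Un A) + inc (WithLp.ofLp x).snd := by
      obtain ⟨c, b, hcb⟩ := un_ind x
      have h0 : WithLp.ofLp x = c • (1 : Unitization ℂ A) + (b : Unitization ℂ A) := by
        rw [hcb]; rfl
      have h1 : (WithLp.ofLp x).fst = c := by rw [h0]; simp
      have h2 : (WithLp.ofLp x).snd = b := by rw [h0]; simp
      rw [h1, h2]; exact hcb
    have hn := WithLp.unitization_norm_def x
    rw [hn]
    conv_lhs => rw [hx, hext]
    have h3 : ‖φ (WithLp.ofLp x).snd‖ ≤ ‖φL‖ * ‖(WithLp.ofLp x).snd‖ := φL.le_opNorm _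
    calc ‖(WithLp.ofLp x).fst • (1 : Un B) + inc (φ (WithLp.ofLp x).snd)‖ ≤
        ‖(WithLp.ofLp x).fst‖ * ‖(1 : Un B)‖ + ‖φ (WithLp.ofLp x).snd‖ := by
          refine (norm_add_le _ _).trans ?_
          rw [norm_smul, norm_inc]
      _ ≤ ‖(WithLp.ofLp x).fst‖ * ‖(1 : Un B)‖ + ‖φL‖ * ‖(WithLp.ofLp x).snd‖ := by gcongr
      _ ≤ (‖(1 : Un B)‖ + ‖φL‖) * (‖(WithLp.ofLp x).fst‖ + ‖(WithLp.ofLp x).snd‖) := by
          have e1 := norm_nonneg (1 : Un B)
          have e2 := norm_nonneg φL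
          have e3 := norm_nonneg (WithLp.ofLp x).fst
          have e4 := norm_nonneg (WithLp.ofLp x).snd
          nlinarith [mul_nonneg e1 e4, mul_nonneg e2 e3]
  have key := unital_case (A := Un A) (B := Un B) (wa_un hWA) G hG k hk
    (ext φ : Un A →ₙₐ[ℂ] Un B) (ext ψ : Un A →ₙₐ[ℂ] Un B) (hcont φ hφ) (hcont ψ hψ) (fun x => by
      obtain ⟨c, a, rfl⟩ := un_ind x
      show ext φ _ - ext ψ _ ∈ _
      rw [hext, hext, add_sub_add_left_eq_sub, ← map_sub]
      exact inc_mem_jacobson (h a))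
  apply NonUnitalAlgHom.ext
  intro a
  apply inc_injective
  have h6 := congrArg (fun F : Un A →ₙₐ[ℂ] Un B => F (inc a)) key
  have h7 : ext φ (inc a) = ext ψ (inc a) := h6
  have h8 := hext φ 0 a
  have h9 := hext ψ 0 a
  rw [zero_smul, zero_smul, zero_add, zero_add] at h8 h9
  rw [← h8, ← h9, h7]

end nonunital

end unitz

end Pool.Agent.H21.HP
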