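import Mathlib
import Pool.Agent.H21.HP.Unitz

open Filter Topology

namespace Pool.Agent.H21.HP

section general

variable {A U : Type*} [NonUnitalNormedCommRing A] [NormedSpace ℂ A] [NormedCommRing U]
  [NormedAlgebra ℂ U]

/-- weak amenability passes to an algebra obtained by adjoining a unit -/
lemma wa_adj (ι : A →ₙₐ[ℂ] U) (hι : ∀ a, ‖ι a‖ = ‖a‖)
    (hsp : ∀ u : U, ∃ (c : ℂ) (a : A), u = c • (1 : U) + ι a)
    (hWA : ∀ D : A →L[ℂ] (A →L[ℂ] ℂ),
      (∀ a b x : A, D (a * b) x = D b (x * a) + D a (b * x)) → ∀ a x, D a x = 0)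
    (D : U →L[ℂ] (U →L[ℂ] ℂ))
    (hD : ∀ a b x : U, D (a * b) x = D b (x * a) + D a (b * x)) : ∀ a x, D a x = 0 := by
  have hc : Continuous ι := AddMonoidHomClass.continuous_of_bound ι 1 (fun a => by
    rw [hι, one_mul])
  let ιL : A →L[ℂ] U := ⟨(ι : A →ₗ[ℂ] U), hc⟩
  have h1 : ∀ x, D 1 x = 0 := by
    intro x
    have h := hD 1 1 x
    rw [one_mul, mul_one, one_mul, left_eq_add] at h
    exact h
  let D₀ : A →L[ℂ] (A →L[ℂ] ℂ) :=
    ((ContinuousLinearMap.compL ℂ A U ℂ).flip ιL).comp (D.comp ιL)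
  have hD₀ : ∀ a x : A, D₀ a x = D (ι a) (ι x) := fun a x => rfl
  have h2 : ∀ a x : A, D (ι a) (ι x) = 0 := by
    intro a x
    rw [← hD₀]
    apply hWA
    intro a b x
    rw [hD₀, hD₀, hD₀, map_mul ι a b, hD, map_mul ι x a, map_mul ι b x]
  let lam : A →L[ℂ] ℂ := ((ContinuousLinearMap.apply ℂ ℂ (1 : U))).comp (D.comp ιL)
  have hlam : ∀ a : A, lam a = D (ι a) 1 := fun a => rfl
  have hlam2 : ∀ a b : A, lam (a * b) = 0 := by
    intro a b
    rw [hlam, map_mul, hD, one_mul, mul_one, h2, h2, add_zero]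
  let E : A →L[ℂ] (A →L[ℂ] ℂ) := ContinuousLinearMap.smulRight lam lam
  have hE : ∀ a x : A, E a x = lam a * lam x := fun a x => rfl
  have h3 : ∀ a : A, lam a = 0 := by
    intro a
    have h4 : E a a = 0 := by
      apply hWA
      intro a b x
      rw [hE, hE, hE, hlam2, hlam2, hlam2, zero_mul, mul_zero, mul_zero, add_zero]
    rw [hE] at h4
    exact mul_self_eq_zero.mp h4
  intro a x
  obtain ⟨c, b, rfl⟩ := hsp a
  obtain ⟨d, y, rfl⟩ := hsp x
  have h5 : D (c • (1 : U) + ι b) (d • (1 : U) + ι y) =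
      c * D 1 (d • (1 : U) + ι y) + (d * D (ι b) 1 + D (ι b) (ι y)) := by
    have e1 : D (c • (1 : U) + ι b) = c • D 1 + D (ι b) := by rw [map_add, map_smul]
    rw [e1]
    show c * D 1 (d • (1 : U) + ι y) + D (ι b) (d • (1 : U) + ι y) = _
    rw [map_add (D (ι b)), map_smul (D (ι b))]
    rfl
  rw [h5, h1, h2, ← hlam, h3]
  ring

/-- the coordinates of an algebra obtained by adjoining a unit -/
lemma exists_coord [CompleteSpace A] (ι : A →ₙₐ[ℂ] U) (hι : ∀ a, ‖ι a‖ = ‖a‖)
    (hsp : ∀ u : U, ∃ (c : ℂ) (a : A), u = c • (1 : U) + ι a) :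
    ∃ (χ : U →L[ℂ] ℂ) (π : U →L[ℂ] A), (∀ u, u = χ u • (1 : U) + ι (π u)) ∧
      (∀ u v, χ (u * v) = χ u * χ v) ∧
      (∀ u v, π (u * v) = χ u • π v + χ v • π u + π u * π v) ∧ (∀ a, χ (ι a) = 0) ∧
      ∀ a, π (ι a) = a := by
  have hinj : Function.Injective ι := by
    intro a b h
    have h1 : ‖ι (a - b)‖ = 0 := by rw [map_sub, h, sub_self, norm_zero]
    rw [hι, norm_eq_zero, sub_eq_zero] at h1
    exact h1
  have hc : Continuous ι := AddMonoidHomClass.continuous_of_bound ι 1 (fun a => by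
    rw [hι, one_mul])
  have hiso : Isometry ι := AddMonoidHomClass.isometry_of_norm ι hι
  have hclosed : IsClosed (Set.range ι) := hiso.isClosedEmbedding.isClosed_range
  -- a continuous functional with the required decomposition
  have hχ : ∃ χ : U →L[ℂ] ℂ, (∀ a, χ (ι a) = 0) ∧ ∀ u, ∃ a, u = χ u • (1 : U) + ι a := by
    by_cases h1 : ∃ e, ι e = 1
    · obtain ⟨e, he⟩ := h1
      refine ⟨0, fun a => rfl, fun u => ?_⟩
      obtain ⟨c, a, hu⟩ := hsp u
      refine ⟨c • e + a, ?_⟩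
      have hz : (0 : U →L[ℂ] ℂ) u = 0 := rfl
      rw [hz, zero_smul, zero_add, map_add, map_smul, he]
      exact hu
    · choose c a hca using hsp
      have huniq : ∀ (u : U) (d : ℂ) (b : A), u = d • (1 : U) + ι b → c u = d := by
        intro u d b hu
        by_contra hne
        apply h1
        refine ⟨(c u - d)⁻¹ • (b - a u), ?_⟩
        have h2 := hca u
        have h3 : (c u - d) • (1 : U) = ι (b - a u) := by
          rw [map_sub, sub_smul, sub_eq_sub_iff_add_eq_add, ← h2, add_comm (ι b), ← hu]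
        rw [map_smul, ← h3, smul_smul, inv_mul_cancel₀ (sub_ne_zero.mpr hne), one_smul]
      let cl : U →ₗ[ℂ] ℂ :=
        { toFun := c
          map_add' := fun u v => huniq _ _ (a u + a v) (by
            rw [map_add, add_smul]
            conv_lhs => rw [hca u, hca v]
            abel)
          map_smul' := fun t u => huniq _ _ (t • a u) (by
            conv_lhs => rw [hca u]
            rw [smul_add, smul_smul, map_smul]
            rfl) }
      have hker : (LinearMap.ker cl : Set U) = Set.range ι := by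
        ext u
        constructor
        · intro hu
          have hu' : c u = 0 := hu
          refine ⟨a u, ?_⟩
          have h2 := hca u
          rw [hu', zero_smul, zero_add] at h2
          exact h2.symm
        · rintro ⟨b, rfl⟩
          show c (ι b) = 0
          exact huniq _ 0 b (by rw [zero_smul, zero_add])
      have hcont : Continuous cl :=
        LinearMap.continuous_of_isClosed_ker cl (by rw [hker]; exact hclosed)
      refine ⟨⟨cl, hcont⟩, fun b => huniq _ 0 b (by rw [zero_smul, zero_add]), fun u => ?_⟩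
      exact ⟨a u, hca u⟩
  obtain ⟨χ, hχ0, hχd⟩ := hχ
  choose p hp using hχd
  have hpu : ∀ u b, u - χ u • (1 : U) = ι b → p u = b := by
    intro u b h
    apply hinj
    rw [← h]
    have h2 := hp u
    exact (sub_eq_of_eq_add' h2).symm
  have hpe : ∀ u, ι (p u) = u - χ u • (1 : U) := by
    intro u
    have h2 := hp u
    exact (sub_eq_of_eq_add' h2).symm
  have hχ1 : χ 1 = 1 ∨ χ = 0 := by
    by_cases h1 : ∃ e, ι e = 1
    · right
      obtain ⟨e, he⟩ := h1
      have h3 : χ 1 = 0 := by rw [← he]; exact hχ0 e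
      apply ContinuousLinearMap.ext
      intro u
      rw [hp u, map_add, map_smul, h3, hχ0, smul_zero, add_zero]
      rfl
    · left
      by_contra hne
      apply h1
      refine ⟨(1 - χ 1)⁻¹ • p 1, ?_⟩
      rw [map_smul, hpe]
      have h3 : (1 : U) - χ 1 • (1 : U) = (1 - χ 1) • (1 : U) := by rw [sub_smul, one_smul]
      have h4 : (1 : ℂ) - χ 1 ≠ 0 := sub_ne_zero.mpr (Ne.symm hne)
      rw [h3, smul_smul, inv_mul_cancel₀ h4, one_smul]
  have hmulι : ∀ u b, ∃ b', u * ι b = ι b' := by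
    intro u b
    refine ⟨χ u • b + p u * b, ?_⟩
    conv_lhs => rw [hp u]
    rw [add_mul, smul_mul_assoc, one_mul, map_add, map_smul, map_mul]
  have hχm : ∀ u v, χ (u * v) = χ u * χ v := by
    intro u v
    rcases hχ1 with h1 | h1
    · obtain ⟨b', hb'⟩ := hmulι u (p v)
      have h2 : u * v = χ v • u + ι b' := by
        conv_lhs => rw [hp v]
        rw [mul_add, mul_smul_comm, mul_one, hb']
      rw [h2, map_add, map_smul, hχ0, add_zero, smul_eq_mul, mul_comm]
    · rw [h1]; simp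
  have hpm : ∀ u v, p (u * v) = χ u • p v + χ v • p u + p u * p v := by
    intro u v
    apply hpu
    rw [hχm, map_add, map_add, map_smul, map_smul, map_mul, hpe, hpe]
    simp only [Algebra.smul_def, map_mul, mul_one]
    ring
  let pl : U →ₗ[ℂ] A :=
    { toFun := p
      map_add' := fun u v => hpu _ _ (by rw [map_add, map_add, hpe, hpe, add_smul]; abel)
      map_smul' := fun t u => hpu _ _ (by
        rw [map_smul, map_smul, hpe, smul_sub, smul_smul]
        rfl) }
  have hplc : Continuous pl := by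
    apply AddMonoidHomClass.continuous_of_bound pl (1 + ‖χ‖ * ‖(1 : U)‖)
    intro u
    show ‖p u‖ ≤ _
    rw [← hι, hpe]
    have h1 : ‖χ u‖ ≤ ‖χ‖ * ‖u‖ := χ.le_opNorm u
    calc ‖u - χ u • (1 : U)‖ ≤ ‖u‖ + ‖χ u‖ * ‖(1 : U)‖ := by
          refine (norm_sub_le _ _).trans ?_
          rw [norm_smul]
      _ ≤ ‖u‖ + (‖χ‖ * ‖u‖) * ‖(1 : U)‖ := by gcongr
      _ = (1 + ‖χ‖ * ‖(1 : U)‖) * ‖u‖ := by ring
  refine ⟨χ, ⟨pl, hplc⟩, fun u => hp u, hχm, fun u v => hpm u v, hχ0, fun b => ?_⟩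
  show p (ι b) = b
  apply hpu
  rw [hχ0, zero_smul, sub_zero]

variable {B : Type*} [NonUnitalNormedCommRing B] [NormedSpace ℂ B] [IsScalarTower ℂ B B]
  [SMulCommClass ℂ B B]

/-- the homomorphisms of `A` into `B` agree if the homomorphisms of the larger algebra into the
unitization of `B` do -/
theorem adj_source [CompleteSpace A] (ι : A →ₙₐ[ℂ] U) (hι : ∀ a, ‖ι a‖ = ‖a‖)
    (hsp : ∀ u : U, ∃ (c : ℂ) (a : A), u = c • (1 : U) + ι a)
    (hU : ∀ φ ψ : U →ₙₐ[ℂ] Un B, Continuous φ → Continuous ψ →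
      (∀ a, φ a - ψ a ∈ Ring.jacobson (Un B)) → φ = ψ)
    (φ ψ : A →ₙₐ[ℂ] B) (hφ : Continuous φ) (hψ : Continuous ψ)
    (h : ∀ a, ∀ c : B, IsQuasiregular (c * (φ a - ψ a))) : φ = ψ := by
  obtain ⟨χ, π, h1, h2, h3, h4, h5⟩ := exists_coord ι hι hsp
  let ext : (A →ₙₐ[ℂ] B) → (U →ₙₐ[ℂ] Un B) := fun φ =>
    { toFun := fun u => χ u • (1 : Un B) + inc (φ (π u))
      map_smul' := fun t u => by
        show χ (t • u) • (1 : Un B) + inc (φ (π (t • u))) =
          t • (χ u • (1 : Un B) + inc (φ (π u)))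
        rw [map_smul, map_smul, map_smul, map_smul, smul_add, smul_smul]
        rfl
      map_zero' := by
        show χ 0 • (1 : Un B) + inc (φ (π 0)) = 0
        rw [map_zero, map_zero, map_zero, map_zero, zero_smul, add_zero]
      map_add' := fun u v => by
        show χ (u + v) • (1 : Un B) + inc (φ (π (u + v))) =
          (χ u • (1 : Un B) + inc (φ (π u))) + (χ v • (1 : Un B) + inc (φ (π v)))
        rw [map_add, map_add, map_add, map_add, add_smul]
        abel
      map_mul' := fun u v => by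
        show χ (u * v) • (1 : Un B) + inc (φ (π (u * v))) =
          (χ u • (1 : Un B) + inc (φ (π u))) * (χ v • (1 : Un B) + inc (φ (π v)))
        rw [h2, h3, map_add φ, map_add φ, map_smul φ, map_smul φ, map_mul φ,
          map_add (inc : B →ₙₐ[ℂ] Un B), map_add (inc : B →ₙₐ[ℂ] Un B),
          map_smul (inc : B →ₙₐ[ℂ] Un B), map_smul (inc : B →ₙₐ[ℂ] Un B),
          map_mul (inc : B →ₙₐ[ℂ] Un B)]
        simp only [Algebra.smul_def, map_mul, mul_one]
        ring }
  have hext : ∀ (φ : A →ₙₐ[ℂ] B) (u : U), ext φ u = χ u • (1 : Un B) + inc (φ (π u)) :=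
    fun φ u => rfl
  have hcont : ∀ (φ : A →ₙₐ[ℂ] B), Continuous φ → Continuous (ext φ) := by
    intro φ hφ
    have e : (ext φ : U → Un B) = fun u => χ u • (1 : Un B) + inc (φ (π u)) := rfl
    rw [e]
    exact (χ.continuous.smul continuous_const).add
      (continuous_inc.comp (hφ.comp π.continuous))
  have key := hU (ext φ) (ext ψ) (hcont φ hφ) (hcont ψ hψ) (fun u => by
    rw [hext, hext, add_sub_add_left_eq_sub, ← map_sub]
    exact inc_mem_jacobson (h (π u)))
  apply NonUnitalAlgHom.ext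
  intro a
  apply inc_injective
  have h6 : ext φ (ι a) = ext ψ (ι a) := by rw [key]
  rw [hext, hext, h4, h5, zero_smul, zero_add, zero_add] at h6
  exact h6

/-- homomorphisms of the larger algebra agree if they agree on `A` -/
theorem adj_mp (ι : A →ₙₐ[ℂ] U) (hι : ∀ a, ‖ι a‖ = ‖a‖)
    (hsp : ∀ u : U, ∃ (c : ℂ) (a : A), u = c • (1 : U) + ι a)
    (hA : ∀ (φ ψ : A →ₙₐ[ℂ] B), Continuous φ → Continuous ψ →
      (∀ a, ∀ c : B, IsQuasiregular (c * (φ a - ψ a))) → φ = ψ)
    (φ ψ : U →ₙₐ[ℂ] B) (hφ : Continuous φ) (hψ : Continuous ψ)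
    (h : ∀ a, ∀ c : B, IsQuasiregular (c * (φ a - ψ a))) : φ = ψ := by
  have hc : Continuous ι := AddMonoidHomClass.continuous_of_bound ι 1 (fun a => by
    rw [hι, one_mul])
  have h1 := hA (φ.comp ι) (ψ.comp ι) (hφ.comp hc) (hψ.comp hc) (fun a => h (ι a))
  have h2 := map_one_eq ((inc : B →ₙₐ[ℂ] Un B).comp φ) ((inc : B →ₙₐ[ℂ] Un B).comp ψ)
    (fun a => by
      have h3 := inc_mem_jacobson (h a)
      rw [map_sub] at h3
      exact h3)
  have h4 : φ 1 = ψ 1 := inc_injective h2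
  apply NonUnitalAlgHom.ext
  intro x
  obtain ⟨c, a, rfl⟩ := hsp x
  have h5 : φ (ι a) = ψ (ι a) := congrArg (fun F : A →ₙₐ[ℂ] B => F a) h1
  rw [map_add, map_add, map_smul, map_smul, h4, h5]

end general

end Pool.Agent.H21.HP
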